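import Pool.Agent.R22.Check
import Mathlib

/-!
# The rational points of a curve of genus two: the certificate
-/

set_option autoImplicit false

namespace Pool.Agent.R22

open Finset

theorem pk_succ' (f : ℕ → ℕ) (n : ℕ) :
    pk f (n + 1) = f 0 + 131072 * pk (fun r => f (r + 1)) n := by
  induction n with
  | zero => simp [pk]
  | succ n ih =>
    rw [pk, ih, pk]
    ring

theorem pk_lin (a : ℕ) (f g : ℕ → ℕ) (n : ℕ) :
    pk (fun r => a * f r + g r) n = a * pk f n + pk g n := by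
  induction n with
  | zero => simp [pk]
  | succ n ih =>
    rw [pk, pk, pk, ih]
    ring

theorem chkDig_spec (r₀ n : ℕ) : ∀ (f : ℕ → ℕ) (s : ℕ), (∀ r, f r < 131072) →
    chkDig r₀ n s (pk f n) = true → ∀ r < n, f r % 5 = if s + r = r₀ then 1 else 0 := by
  induction n with
  | zero => intro _ _ _ _ r hr; exact absurd hr (Nat.not_lt_zero r)
  | succ n ih =>
    intro f s hf h r hr
    have h1 : pk f (n + 1) % 131072 = f 0 := by
      rw [pk_succ', Nat.add_mul_mod_self_left, Nat.mod_eq_of_lt (hf 0)]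
    have h2 : pk f (n + 1) / 131072 = pk (fun r => f (r + 1)) n := by
      rw [pk_succ', Nat.add_mul_div_left _ _ (by norm_num), Nat.div_eq_of_lt (hf 0), zero_add]
    rw [chkDig, h1, h2] at h
    cases hb : Nat.beq (f 0 % 5) (cond (Nat.beq s r₀) 1 0)
    · rw [hb] at h
      exact absurd h (by simp)
    · rw [hb, cond_true] at h
      rcases r with _ | r
      · rw [Nat.eq_of_beq_eq_true hb, add_zero]
        by_cases h3 : s = r₀
        · rw [if_pos h3, h3, show Nat.beq r₀ r₀ = true from Nat.beq_refl r₀, cond_true]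
        · rw [if_neg h3]
          have h4 : Nat.beq s r₀ = false := by
            cases h5 : Nat.beq s r₀
            · rfl
            · exact absurd (Nat.eq_of_beq_eq_true h5) h3
          rw [h4, cond_false]
      · have h5 := ih (fun r => f (r + 1)) (s + 1) (fun r => hf (r + 1)) h r (by omega)
        rw [h5]
        congr 1
        rw [show s + 1 + r = s + (r + 1) by ring]

/-- the combination of rows -/
def sf : ℕ → List ℕ → ℕ → ℕ
  | _, [], _ => 0
  | K, C :: Cs, r => K % 8 * row C r + sf (K / 8) Cs r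

theorem comb_eq (Cs : List ℕ) : ∀ K, comb K (Cs.map fun C => pk (row C) 485) =
    pk (sf K Cs) 485 := by
  induction Cs with
  | nil =>
    intro K
    have h : ∀ n, pk (sf K []) n = 0 := by
      intro n
      induction n with
      | zero => rfl
      | succ n ih => rw [pk, ih, sf, zero_mul, add_zero]
    rw [h]
    rfl
  | cons C Cs ih =>
    intro K
    rw [List.map_cons, comb, ih (K / 8), ← pk_lin]
    rfl

theorem dig_lt (C i : ℕ) : dig C i < 8 := Nat.mod_lt _ (by norm_num)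

theorem row_le (C r : ℕ) : row C r ≤ 49 := by
  have h1 := dig_lt C (r / 22)
  have h2 := dig_lt C (r % 22)
  have h3 : dig C (r / 22) * dig C (r % 22) ≤ 7 * 7 := Nat.mul_le_mul (by omega) (by omega)
  rw [row]
  cases Nat.beq r 484
  · cases Nat.ble (r / 22) (r % 22)
    · simp
    · simpa using h3
  · simp

theorem sf_le (Cs : List ℕ) : ∀ K r, sf K Cs r ≤ 343 * Cs.length := by
  induction Cs with
  | nil => intro K r; simp [sf]
  | cons C Cs ih =>
    intro K r
    have h1 := ih (K / 8) r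
    have h2 : K % 8 * row C r ≤ 7 * 49 :=
      Nat.mul_le_mul (by have := Nat.mod_lt K (show 8 > 0 by norm_num); omega) (row_le C r)
    rw [sf, List.length_cons]
    omega

theorem sf_dot {U : ℕ → ZMod 5} {Cs : List ℕ}
    (hU : ∀ C ∈ Cs, ∑ r ∈ range 485, (row C r : ZMod 5) * U r = 0) :
    ∀ K, ∑ r ∈ range 485, (sf K Cs r : ZMod 5) * U r = 0 := by
  induction Cs with
  | nil => intro K; simp [sf]
  | cons C Cs ih =>
    intro K
    have h1 := hU C List.mem_cons_self
    have h2 := ih (fun C hC => hU C (List.mem_cons_of_mem _ hC)) (K / 8)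
    have h3 : ∀ r, (sf K (C :: Cs) r : ZMod 5) * U r =
        ((K % 8 : ℕ) : ZMod 5) * ((row C r : ZMod 5) * U r) + (sf (K / 8) Cs r : ZMod 5) * U r := by
      intro r
      rw [sf]
      push_cast
      ring
    simp only [h3]
    rw [sum_add_distrib, ← mul_sum, h1, h2, mul_zero, add_zero]

/-- **The certificate**: the equations modulo five have only the trivial solution. -/
theorem cert_zero {U : ℕ → ZMod 5}
    (hU : ∀ C ∈ tab, ∑ r ∈ range 485, (row C r : ZMod 5) * U r = 0) {r₀ : ℕ}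
    (h : r₀ = 484 ∨ (r₀ < 484 ∧ r₀ / 22 ≤ r₀ % 22)) : U r₀ = 0 := by
  have hr : r₀ < 485 := by omega
  have h1 : r₀ ∈ cert.map Prod.snd := by
    rw [cert_slots, List.mem_append, List.mem_filter, List.mem_range, List.mem_singleton]
    rcases h with h | ⟨h, h'⟩
    · exact Or.inr h
    · exact Or.inl ⟨h, by rwa [Nat.ble_eq]⟩
  obtain ⟨c, hc, rfl⟩ := List.mem_map.1 h1
  have h2 := List.all_eq_true.1 cert_ok c hc
  rw [chk, comb_eq] at h2
  have hb : ∀ r, sf c.1 tab r < 131072 := by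
    intro r
    have h3 := sf_le tab c.1 r
    rw [tab_length] at h3
    omega
  have h3 := chkDig_spec c.2 485 (sf c.1 tab) 0 hb h2
  have h4 := sf_dot hU c.1
  rw [sum_eq_single c.2] at h4
  · have h5 : ((sf c.1 tab c.2 : ℕ) : ZMod 5) = 1 := by
      rw [← ZMod.natCast_mod, h3 c.2 hr, zero_add, if_pos rfl, Nat.cast_one]
    rw [h5, one_mul] at h4
    exact h4
  · intro r hr' hne
    have h5 : ((sf c.1 tab r : ℕ) : ZMod 5) = 0 := by
      rw [← ZMod.natCast_mod, h3 r (mem_range.1 hr'), zero_add, if_neg hne, Nat.cast_zero]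
    rw [h5, zero_mul]
  · intro h5
    exact absurd (mem_range.2 hr) h5

/-- a rational vector which is orthogonal to integral vectors with the given reductions vanishes -/
theorem vec_zero {v : ℕ → ℚ} {ρ : ℕ → ℕ → ℤ}
    (hρ : ∀ n < 321, ∀ r < 485, ((ρ n r : ℤ) : ZMod 5) = (row (tab.getD n 0) r : ZMod 5))
    (hv : ∀ n < 321, ∑ r ∈ range 485, (ρ n r : ℚ) * v r = 0)
    (h0 : ∀ r < 484, ¬ r / 22 ≤ r % 22 → v r = 0) : ∀ r < 485, v r = 0 := by
  have hp : Fact (Nat.Prime 5) := ⟨by norm_num⟩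
  by_contra hcon
  push Not at hcon
  obtain ⟨r₁, hr₁, hv₁⟩ := hcon
  obtain ⟨r₀, hr₀, hmax⟩ := exists_max_image (range 485) (fun r => ‖(v r : ℚ_[5])‖)
    ⟨r₁, mem_range.2 hr₁⟩
  rw [mem_range] at hr₀
  have hv0 : (v r₀ : ℚ_[5]) ≠ 0 := by
    intro h
    have h1 := hmax r₁ (mem_range.2 hr₁)
    rw [h, norm_zero] at h1
    have h2 : (v r₁ : ℚ_[5]) = 0 := norm_le_zero_iff.1 h1
    exact hv₁ (by exact_mod_cast h2)
  have hnorm : ∀ r : ℕ, ‖if r < 485 then (v r : ℚ_[5]) / v r₀ else 0‖ ≤ 1 := by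
    intro r
    split_ifs with hr
    · rw [norm_div]
      exact div_le_one_of_le₀ (hmax r (mem_range.2 hr)) (norm_nonneg _)
    · rw [norm_zero]
      exact zero_le_one
  let w : ℕ → ℤ_[5] := fun r => ⟨_, hnorm r⟩
  have hw : ∀ r < 485, ((w r : ℤ_[5]) : ℚ_[5]) = (v r : ℚ_[5]) / v r₀ := fun r hr => if_pos hr
  have h1 : ∀ n < 321, ∑ r ∈ range 485, ((ρ n r : ℤ) : ℤ_[5]) * w r = 0 := by
    intro n hn
    apply PadicInt.ext
    rw [PadicInt.coe_sum, PadicInt.coe_zero]
    have h2 : ((∑ r ∈ range 485, (ρ n r : ℚ) * v r : ℚ) : ℚ_[5]) = 0 := by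
      rw [hv n hn, Rat.cast_zero]
    rw [Rat.cast_sum] at h2
    have h3 : ∀ r ∈ range 485, ((((ρ n r : ℤ) : ℤ_[5]) * w r : ℤ_[5]) : ℚ_[5]) =
        ((ρ n r : ℚ) * v r : ℚ) * ((v r₀ : ℚ_[5]))⁻¹ := by
      intro r hr
      rw [PadicInt.coe_mul, hw r (mem_range.1 hr)]
      push_cast
      ring
    rw [sum_congr rfl h3, ← sum_mul, h2, zero_mul]
  have h2 : ∀ C ∈ tab, ∑ r ∈ range 485, (row C r : ZMod 5) * PadicInt.toZMod (w r) = 0 := by
    intro C hC
    obtain ⟨n, hn, rfl⟩ := List.getElem_of_mem hC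
    have hn' : n < 321 := by rwa [tab_length] at hn
    have h3 := congrArg PadicInt.toZMod (h1 n hn')
    rw [map_sum, map_zero] at h3
    rw [← h3]
    apply sum_congr rfl
    intro r hr
    rw [map_mul, map_intCast, hρ n hn' r (mem_range.1 hr), List.getD_eq_getElem _ _ hn]
  have h3 : r₀ = 484 ∨ (r₀ < 484 ∧ r₀ / 22 ≤ r₀ % 22) := by
    by_contra h4
    push Not at h4
    have h5 : r₀ < 484 := by omega
    have h6 := h0 r₀ h5 (not_le.2 (h4.2 h5))
    exact hv0 (by rw [h6, Rat.cast_zero])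
  have h4 := cert_zero h2 h3
  have h5 : w r₀ = 1 := by
    apply PadicInt.ext
    rw [hw r₀ hr₀, div_self hv0, PadicInt.coe_one]
  simp only [h5, map_one] at h4
  exact one_ne_zero h4

end Pool.Agent.R22
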