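import Pool.Agent.R22.Data

/-!
# The rational points of a curve of genus two: functions which check the data
-/

set_option autoImplicit false

namespace Pool.Agent.R22

/-- The number with the digits `f 0`, .., `f (n - 1)`. -/
def pk (f : Nat → Nat) : Nat → Nat
  | 0 => 0
  | n + 1 => pk f n + f n * 131072 ^ n

/-- The digit of the coordinates. -/
def dig (C i : Nat) : Nat := C / 8 ^ i % 8

/-- The quadratic monomials in the coordinates. -/
def row (C r : Nat) : Nat :=
  cond (Nat.beq r 484) 1
    (cond (Nat.ble (r / 22) (r % 22)) (dig C (r / 22) * dig C (r % 22)) 0)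

/-- The combination of the numbers in a list with the coefficients `K` (in base eight). -/
def comb : Nat → List Nat → Nat
  | _, [] => 0
  | K, m :: ms => K % 8 * m + comb (K / 8) ms

/-- The digits of `N` are zero modulo five, except the one with the number `r₀`, which is one. -/
def chkDig (r₀ : Nat) : Nat → Nat → Nat → Bool
  | 0, _, _ => true
  | n + 1, r, N => cond (Nat.beq (N % 131072 % 5) (cond (Nat.beq r r₀) 1 0))
      (chkDig r₀ n (r + 1) (N / 131072)) false

def chk (c : Nat × Nat) : Bool := chkDig c.2 485 0 (comb c.1 (tab.map fun C => pk (row C) 485))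

/-- the relation of the coordinates modulo five -/
def chkCoord (R : Rel) : Bool :=
  (List.range 22).all fun i =>
    Nat.beq ((R.js.map fun p => cond p.2 1 4 * dig (tab.getD p.1 0) i).sum % 5) 0

/-- the values of the polynomial -/
def chkVal (R : Rel) : Bool :=
  R.js.all fun p =>
    match pts.getD p.1 (0, 1, 0) with
    | (a, b, s) => decide (R.p0 * b ^ 3 + R.p1 * a * b ^ 2 + R.p2 * a ^ 2 * b + R.p3 * a ^ 3 =
        R.d * cond p.2 (s : Int) (-s))

/-- the pairs of points have different abscissas -/
def chkNe : List (Int × Nat × Nat) → Bool
  | [] => true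
  | p :: ps => ps.all (fun q => decide (p.1 * q.2.1 ≠ q.1 * p.2.1)) && chkNe ps

/-- the form of a relation -/
def chkForm (R : Rel) : Bool :=
  decide (R.js.length = 6) && decide (R.d ≠ 0) && decide (82342800 * R.d ^ 2 ≠ R.p3 ^ 2) &&
    R.js.all (fun p => decide (p.1 ≤ (R.js.headD (0, true)).1)) &&
    (R.js.map Prod.fst).Nodup

/-- the points are on the curve -/
def chkPt (p : Int × Nat × Nat) : Bool :=
  match p with
  | (a, b, s) => decide (b ≠ 0) && decide (s ≠ 0) &&
    decide (247747600 * b ^ 6 - 985905640 * a * b ^ 5 + 567207969 * a ^ 2 * b ^ 4 +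
      2396040466 * a ^ 3 * b ^ 3 + 52485681 * a ^ 4 * b ^ 2 - 470135160 * a ^ 5 * b +
      82342800 * a ^ 6 = (s : Int) ^ 2)

theorem cert_ok : cert.all chk = true := by decide +kernel

theorem coord_ok : rels.all chkCoord = true := by decide +kernel

theorem val_ok : rels.all chkVal = true := by decide +kernel

theorem form_ok : rels.all chkForm = true := by decide +kernel

theorem pt_ok : pts.all chkPt = true := by decide +kernel

theorem ne_ok : chkNe pts = true := by decide +kernel

theorem pts_length : pts.length = 321 := by decide +kernel

theorem tab_length : tab.length = 321 := by decide +kernel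

theorem tab_take : tab.take 22 = (List.range 22).map fun i => 8 ^ i := by decide +kernel

theorem rels_head : rels.map (fun R => (R.js.headD (0, true)).1) = List.range' 22 299 := by
  decide +kernel

theorem cert_slots : cert.map Prod.snd =
    ((List.range 484).filter fun r => Nat.ble (r / 22) (r % 22)) ++ [484] := by decide +kernel

end Pool.Agent.R22
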