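import Pool.Agent.R22.Cert

/-!
# The rational points of a curve of genus two: coordinates
-/

set_option autoImplicit false

namespace Pool.Agent.R22

open Finset

/-- the sign -/
def sg (s : Bool) : ℤ := cond s 1 (-1)

theorem sg_sq (s : Bool) : sg s * sg s = 1 := by cases s <;> rfl

theorem sg_zmod (s : Bool) : ((sg s : ℤ) : ZMod 5) = ((cond s 1 4 : ℕ) : ZMod 5) := by
  cases s <;> decide

theorem dig_seed : ∀ n < 22, ∀ i < 22, dig (8 ^ n) i = if i = n then 1 else 0 := by
  decide +kernel

theorem tab_seed {n : ℕ} (hn : n < 22) : tab.getD n 0 = 8 ^ n := by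
  have h1 : (tab.take 22).getD n 0 = tab.getD n 0 := by
    rw [List.getD_eq_getElem?_getD, List.getD_eq_getElem?_getD, List.getElem?_take_of_lt hn]
  rw [← h1, tab_take, List.getD_eq_getElem?_getD, List.getElem?_map, List.getElem?_range hn]
  rfl

/-- the relation which defines the point with the number `n` -/
theorem exists_rel {n : ℕ} (h1 : 22 ≤ n) (h2 : n < 321) :
    ∃ R ∈ rels, ∃ (s : Bool) (tl : List (ℕ × Bool)), R.js = (n, s) :: tl ∧ ∀ p ∈ tl, p.1 < n := by
  have h3 : n ∈ rels.map (fun R => (R.js.headD (0, true)).1) := by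
    rw [rels_head, List.mem_range'_1]
    omega
  obtain ⟨R, hR, h4⟩ := List.mem_map.1 h3
  have h5 := List.all_eq_true.1 form_ok R hR
  rw [chkForm] at h5
  simp only [Bool.and_eq_true, decide_eq_true_eq, List.all_eq_true] at h5
  obtain ⟨⟨⟨⟨h6, -⟩, -⟩, h7⟩, h8⟩ := h5
  refine ⟨R, hR, ?_⟩
  rcases hj : R.js with _ | ⟨⟨m, s⟩, tl⟩
  · rw [hj] at h6
    exact absurd h6 (by decide)
  · rw [hj] at h4 h7 h8
    have h9 : m = n := h4
    subst h9
    refine ⟨s, tl, rfl, fun p hp => ?_⟩
    have h10 := h7 p (List.mem_cons_of_mem _ hp)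
    have h11 : p.1 ≤ m := h10
    have h12 : m ∉ tl.map Prod.fst := by
      rw [List.map_cons, List.nodup_cons] at h8
      exact h8.1
    have h13 : p.1 ≠ m := by
      rintro h14
      exact h12 (h14 ▸ List.mem_map_of_mem hp)
    omega

/-- the relation of the coordinates -/
theorem coord_rel {R : Rel} (hR : R ∈ rels) {i : ℕ} (hi : i < 22) :
    (R.js.map fun p => ((sg p.2 : ℤ) : ZMod 5) * (dig (tab.getD p.1 0) i : ZMod 5)).sum = 0 := by
  have h1 := List.all_eq_true.1 coord_ok R hR
  rw [chkCoord, List.all_eq_true] at h1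
  have h2 := Nat.eq_of_beq_eq_true (h1 i (List.mem_range.2 hi))
  have h3 : (((R.js.map fun p => cond p.2 1 4 * dig (tab.getD p.1 0) i).sum : ℕ) : ZMod 5) = 0 := by
    rw [← ZMod.natCast_mod, h2, Nat.cast_zero]
  rw [Nat.cast_list_sum, List.map_map] at h3
  rw [← h3]
  congr 1
  apply List.map_congr_left
  intro p _
  rw [Function.comp_apply, Nat.cast_mul, sg_zmod]

/-- **Integral coordinates** with the given reductions modulo five. -/
theorem exists_coord {B : ℕ → ℕ → ℚ} (hr : ∀ R ∈ rels, ∀ m < 321,
      (R.js.map fun p => (sg p.2 : ℚ) * B p.1 m).sum = 0) (n : ℕ) (hn : n < 321) :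
    ∃ c : ℕ → ℤ, (∀ i < 22, ((c i : ℤ) : ZMod 5) = (dig (tab.getD n 0) i : ZMod 5)) ∧
      ∀ m < 321, B n m = ∑ i ∈ range 22, (c i : ℚ) * B i m := by
  induction n using Nat.strong_induction_on with
  | _ n ih =>
  by_cases h22 : n < 22
  · refine ⟨fun i => if i = n then 1 else 0, fun i hi => ?_, fun m _ => ?_⟩
    · rw [tab_seed h22, dig_seed n h22 i hi]
      rcases eq_or_ne i n with h | h
      · simp [h]
      · simp [h]
    · rw [sum_eq_single n]
      · simp
      · intro i _ hi
        simp [hi]
      · intro h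
        exact absurd (mem_range.2 h22) h
  · obtain ⟨R, hR, s, tl, hj, htl⟩ := exists_rel (not_lt.1 h22) hn
    have h1 : ∀ p : ℕ × Bool, ∃ c : ℕ → ℤ, p ∈ tl →
        (∀ i < 22, ((c i : ℤ) : ZMod 5) = (dig (tab.getD p.1 0) i : ZMod 5)) ∧
          ∀ m < 321, B p.1 m = ∑ i ∈ range 22, (c i : ℚ) * B i m := by
      intro p
      by_cases hp : p ∈ tl
      · obtain ⟨c, hc⟩ := ih p.1 (htl p hp) ((htl p hp).trans hn)
        exact ⟨c, fun _ => hc⟩
      · exact ⟨0, fun h => absurd h hp⟩
    choose c hc using h1
    refine ⟨fun i => -(sg s) * (tl.map fun p => sg p.2 * c p i).sum, fun i hi => ?_,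
      fun m hm => ?_⟩
    · have h2 := coord_rel hR hi
      rw [hj, List.map_cons, List.sum_cons] at h2
      have h3 : (((tl.map fun p => sg p.2 * c p i).sum : ℤ) : ZMod 5) =
          (tl.map fun p => ((sg p.2 : ℤ) : ZMod 5) * (dig (tab.getD p.1 0) i : ZMod 5)).sum := by
        rw [Int.cast_list_sum, List.map_map]
        congr 1
        apply List.map_congr_left
        intro p hp
        rw [Function.comp_apply, Int.cast_mul, (hc p hp).1 i hi]
      rw [Int.cast_mul, h3, Int.cast_neg]
      have h4 : ((sg s : ℤ) : ZMod 5) * ((sg s : ℤ) : ZMod 5) = 1 := by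
        rw [← Int.cast_mul, sg_sq, Int.cast_one]
      linear_combination (-((sg s : ℤ) : ZMod 5)) * h2 +
        (dig (tab.getD n 0) i : ZMod 5) * h4
    · have h2 := hr R hR m hm
      rw [hj, List.map_cons, List.sum_cons] at h2
      have h3 : (tl.map fun p => (sg p.2 : ℚ) * B p.1 m).sum =
          ∑ i ∈ range 22, (((tl.map fun p => sg p.2 * c p i).sum : ℤ) : ℚ) * B i m := by
        have h4 : ∀ l : List (ℕ × Bool), (∀ p ∈ l, p ∈ tl) →
            (l.map fun p => (sg p.2 : ℚ) * B p.1 m).sum =
              ∑ i ∈ range 22, (((l.map fun p => sg p.2 * c p i).sum : ℤ) : ℚ) * B i m := by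
          intro l
          induction l with
          | nil => intro _; simp
          | cons p l ihl =>
            intro hl
            rw [List.map_cons, List.sum_cons, ihl fun q hq => hl q (List.mem_cons_of_mem _ hq),
              (hc p (hl p List.mem_cons_self)).2 m hm, mul_sum, ← sum_add_distrib]
            apply sum_congr rfl
            intro i _
            rw [List.map_cons, List.sum_cons]
            push_cast
            ring
        exact h4 tl fun p hp => hp
      have h4 : (sg s : ℚ) * (sg s : ℚ) = 1 := by exact_mod_cast sg_sq s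
      have h5 : B n m = -(sg s : ℚ) * (tl.map fun p => (sg p.2 : ℚ) * B p.1 m).sum := by
        have h2' : (sg s : ℚ) * B n m + (tl.map fun p => (sg p.2 : ℚ) * B p.1 m).sum = 0 := h2
        linear_combination (sg s : ℚ) * h2' - B n m * h4
      rw [h5, h3, mul_sum]
      apply sum_congr rfl
      intro i _
      push_cast
      ring

/-- **Integral coordinates** in an abelian group. -/
theorem exists_coord_group {M : Type*} [AddCommGroup M] {w : ℕ → M} (hr : ∀ R ∈ rels,
      (R.js.map fun p => sg p.2 • w p.1).sum = 0) (n : ℕ) (hn : n < 321) :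
    ∃ c : ℕ → ℤ, w n = ∑ i ∈ range 22, c i • w i := by
  induction n using Nat.strong_induction_on with
  | _ n ih =>
  by_cases h22 : n < 22
  · refine ⟨fun i => if i = n then 1 else 0, ?_⟩
    rw [sum_eq_single n]
    · simp
    · intro i _ hi
      simp [hi]
    · intro h
      exact absurd (mem_range.2 h22) h
  · obtain ⟨R, hR, s, tl, hj, htl⟩ := exists_rel (not_lt.1 h22) hn
    have h1 : ∀ p : ℕ × Bool, ∃ c : ℕ → ℤ, p ∈ tl → w p.1 = ∑ i ∈ range 22, c i • w i := by
      intro p
      by_cases hp : p ∈ tl
      · obtain ⟨c, hc⟩ := ih p.1 (htl p hp) ((htl p hp).trans hn)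
        exact ⟨c, fun _ => hc⟩
      · exact ⟨0, fun h => absurd h hp⟩
    choose c hc using h1
    refine ⟨fun i => -(sg s) * (tl.map fun p => sg p.2 * c p i).sum, ?_⟩
    have h2 := hr R hR
    rw [hj, List.map_cons, List.sum_cons] at h2
    have h3 : (tl.map fun p => sg p.2 • w p.1).sum =
        ∑ i ∈ range 22, (tl.map fun p => sg p.2 * c p i).sum • w i := by
      have h4 : ∀ l : List (ℕ × Bool), (∀ p ∈ l, p ∈ tl) →
          (l.map fun p => sg p.2 • w p.1).sum =
            ∑ i ∈ range 22, (l.map fun p => sg p.2 * c p i).sum • w i := by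
        intro l
        induction l with
        | nil => intro _; simp
        | cons p l ihl =>
          intro hl
          rw [List.map_cons, List.sum_cons, ihl fun q hq => hl q (List.mem_cons_of_mem _ hq),
            hc p (hl p List.mem_cons_self), smul_sum, ← sum_add_distrib]
          apply sum_congr rfl
          intro i _
          rw [List.map_cons, List.sum_cons, add_smul, mul_smul]
      exact h4 tl fun p hp => hp
    have h5 : w n = -(sg s) • (tl.map fun p => sg p.2 • w p.1).sum := by
      have h6 : sg s • w n + (tl.map fun p => sg p.2 • w p.1).sum = 0 := h2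
      have h7 : (tl.map fun p => sg p.2 • w p.1).sum = -(sg s • w n) := by
        rw [eq_neg_iff_add_eq_zero, add_comm]
        exact h6
      rw [h7, neg_smul, smul_neg, neg_neg, ← mul_smul, sg_sq, one_smul]
    rw [h5, h3, smul_sum]
    apply sum_congr rfl
    intro i _
    rw [← mul_smul]

/-- a sum over the slots -/
theorem sum_slots {M : Type*} [AddCommMonoid M] (f : ℕ → ℕ → M) (m : ℕ) :
    ∑ r ∈ range (22 * m), f (r / 22) (r % 22) = ∑ i ∈ range m, ∑ j ∈ range 22, f i j := by
  induction m with
  | zero => simp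
  | succ m ih =>
    rw [mul_add, mul_one, sum_range_add, ih, sum_range_succ (fun i => ∑ j ∈ range 22, f i j) m]
    congr 1
    apply sum_congr rfl
    intro x hx
    have hx' := mem_range.1 hx
    rw [Nat.mul_add_div (by norm_num), Nat.div_eq_of_lt hx', add_zero,
      Nat.mul_add_mod, Nat.mod_eq_of_lt hx']

/-- a symmetric sum -/
theorem sum_symm (T : ℕ → ℕ → ℚ) (hT : ∀ i < 22, ∀ j < 22, T i j = T j i) :
    ∑ i ∈ range 22, ∑ j ∈ range 22, (if i ≤ j then (if i = j then T i j else 2 * T i j) else 0) =
      ∑ i ∈ range 22, ∑ j ∈ range 22, T i j := by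
  have h1 : ∀ i j, (if i ≤ j then (if i = j then T i j else 2 * T i j) else 0) =
      (if i ≤ j then T i j else 0) + (if i < j then T i j else 0) := by
    intro i j
    by_cases h : i ≤ j
    · by_cases h' : i = j
      · simp [h']
      · have h'' : i < j := lt_of_le_of_ne h h'
        simp [h, h', h'']
        ring
    · have h' : ¬ i < j := fun h' => h h'.le
      simp [h, h']
  have h2 : ∑ i ∈ range 22, ∑ j ∈ range 22, (if i < j then T i j else 0) =
      ∑ i ∈ range 22, ∑ j ∈ range 22, (if j < i then T i j else 0) := by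
    rw [sum_comm]
    apply sum_congr rfl
    intro i hi
    apply sum_congr rfl
    intro j hj
    rw [hT j (mem_range.1 hj) i (mem_range.1 hi)]
  simp only [h1, sum_add_distrib]
  rw [h2, ← sum_add_distrib]
  apply sum_congr rfl
  intro i _
  rw [← sum_add_distrib]
  apply sum_congr rfl
  intro j _
  by_cases h : i ≤ j
  · simp [h, not_lt.2 h]
  · simp [h, not_le.1 h]

/-- **The only symmetric form with constant values at the points is zero.** -/
theorem form_zero {B : ℕ → ℕ → ℚ} {g : ℚ} (hs : ∀ m < 321, ∀ n < 321, B m n = B n m)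
    (hd : ∀ n < 321, B n n = g) (hr : ∀ R ∈ rels, ∀ m < 321,
      (R.js.map fun p => (sg p.2 : ℚ) * B p.1 m).sum = 0) :
    g = 0 ∧ ∀ m < 321, ∀ n < 321, B m n = 0 := by
  have h0 : ∀ n : ℕ, ∃ c : ℕ → ℤ, n < 321 →
      (∀ i < 22, ((c i : ℤ) : ZMod 5) = (dig (tab.getD n 0) i : ZMod 5)) ∧
      ∀ m < 321, B n m = ∑ i ∈ range 22, (c i : ℚ) * B i m := by
    intro n
    by_cases hn : n < 321
    · obtain ⟨c, hc⟩ := exists_coord hr n hn
      exact ⟨c, fun _ => hc⟩
    · exact ⟨0, fun h => absurd h hn⟩
  choose c hc using h0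
  let v : ℕ → ℚ := fun r => if r = 484 then -g else
    if r / 22 ≤ r % 22 then
      (if r / 22 = r % 22 then B (r / 22) (r % 22) else 2 * B (r / 22) (r % 22)) else 0
  let ρ : ℕ → ℕ → ℤ := fun n r => if r = 484 then 1 else
    if r / 22 ≤ r % 22 then c n (r / 22) * c n (r % 22) else 0
  have hρ : ∀ n < 321, ∀ r < 485, ((ρ n r : ℤ) : ZMod 5) = (row (tab.getD n 0) r : ZMod 5) := by
    intro n hn r hr
    by_cases h1 : r = 484
    · subst h1
      have h2 : row (tab.getD n 0) 484 = 1 := rfl
      rw [h2]
      simp [ρ]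
    · have h2 : Nat.beq r 484 = false := by
        cases h3 : Nat.beq r 484
        · rfl
        · exact absurd (Nat.eq_of_beq_eq_true h3) h1
      by_cases h3 : r / 22 ≤ r % 22
      · have h4 : Nat.ble (r / 22) (r % 22) = true := by rwa [Nat.ble_eq]
        rw [row, h2, h4, cond_false, cond_true, Nat.cast_mul,
          ← (hc n hn).1 (r / 22) (by omega), ← (hc n hn).1 (r % 22) (by omega)]
        simp [ρ, h1, h3]
      · have h4 : Nat.ble (r / 22) (r % 22) = false := by
          cases h5 : Nat.ble (r / 22) (r % 22)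
          · rfl
          · rw [Nat.ble_eq] at h5
            exact absurd h5 h3
        rw [row, h2, h4, cond_false, cond_false]
        simp [ρ, h1, h3]
  have hv : ∀ n < 321, ∑ r ∈ range 485, (ρ n r : ℚ) * v r = 0 := by
    intro n hn
    rw [sum_range_succ]
    have h1 : (ρ n 484 : ℚ) * v 484 = -g := by simp [ρ, v]
    have h2 : ∀ r ∈ range 484, (ρ n r : ℚ) * v r = (fun i j => if i ≤ j then
        (if i = j then (c n i : ℚ) * c n j * B i j else 2 * ((c n i : ℚ) * c n j * B i j))
          else 0) (r / 22) (r % 22) := by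
      intro r hr
      have h3 : r ≠ 484 := (mem_range.1 hr).ne
      simp only [ρ, v, if_neg h3]
      split_ifs
      · push_cast
        ring
      · push_cast
        ring
      · push_cast
        ring
    rw [sum_congr rfl h2, h1]
    have h3 := sum_slots (fun i j => if i ≤ j then
        (if i = j then (c n i : ℚ) * c n j * B i j else 2 * ((c n i : ℚ) * c n j * B i j))
          else 0) 22
    rw [show 22 * 22 = 484 from rfl] at h3
    rw [h3, sum_symm (fun i j => (c n i : ℚ) * c n j * B i j) fun i hi j hj => by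
      simp only [hs i (by omega) j (by omega)]
      ring]
    have h4 : ∑ i ∈ range 22, ∑ j ∈ range 22, (c n i : ℚ) * c n j * B i j = g := by
      rw [← hd n hn, (hc n hn).2 n hn]
      apply sum_congr rfl
      intro i hi
      have hi' : i < 321 := (mem_range.1 hi).trans (by norm_num)
      rw [hs i hi' n hn, (hc n hn).2 i hi', mul_sum]
      apply sum_congr rfl
      intro j hj
      rw [hs j ((mem_range.1 hj).trans (by norm_num)) i hi']
      ring
    rw [h4]
    ring
  have h1 := vec_zero hρ hv fun r hr h => by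
    simp only [v]
    rw [if_neg hr.ne, if_neg h]
  have hg : g = 0 := by
    have h2 := h1 484 (by norm_num)
    simpa [v] using h2
  have hB : ∀ i < 22, ∀ j < 22, i ≤ j → B i j = 0 := by
    intro i hi j hj hij
    have h2 := h1 (22 * i + j) (by omega)
    have h3 : (22 * i + j) / 22 = i := by omega
    have h4 : (22 * i + j) % 22 = j := by omega
    simp only [v, h3, h4] at h2
    rw [if_neg (by omega), if_pos hij] at h2
    split_ifs at h2
    · exact h2
    · linarith
  have hB' : ∀ i < 22, ∀ j < 22, B i j = 0 := by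
    intro i hi j hj
    rcases le_total i j with h | h
    · exact hB i hi j hj h
    · rw [hs i (by omega) j (by omega)]
      exact hB j hj i hi h
  refine ⟨hg, fun m hm n hn => ?_⟩
  rw [(hc m hm).2 n hn]
  apply sum_eq_zero
  intro i hi
  have hi' := mem_range.1 hi
  rw [hs i (by omega) n hn, (hc n hn).2 i (by omega), sum_eq_zero, mul_zero]
  intro j hj
  rw [hB' j (mem_range.1 hj) i hi', mul_zero]

end Pool.Agent.R22
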