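import Pool.Agent.FPZ.Quad

/-!
# Points on no quadric: definitions
-/

set_option autoImplicit false

noncomputable section

namespace Pool.Agent.R22

open Pool.Agent.ZCyc Pool.Agent.Dess Pool.Agent.Dess4 Pool.Agent.FPZ

variable (k F : Type) [Field k] [Field F] [Algebra k F]

/-- The Picard group of the curve `C` with function field `F`: the divisors modulo the divisors of
functions. The classes of degree zero are the points of the Jacobian of `C`. -/
abbrev Pic : Type := ((Unit → Place k F) →₀ ℤ) ⧸ RatEq (k := k) fun _ : Unit => F

variable {k F}

/-- The class of a divisor. -/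
def cls (A : Place k F →₀ ℤ) : Pic k F := QuotientAddGroup.mk (unq A)

/-- The subgroup of the Picard group which is generated by the classes of the divisors `p - q`, where
`p` and `q` are points in the set `S`. -/
def Gen (S : Set (Place k F)) : AddSubgroup (Pic k F) :=
  AddSubgroup.closure {c | ∃ p ∈ S, ∃ q ∈ S, c = cls (Finsupp.single p 1 - Finsupp.single q 1)}

/-- The group of all classes with a positive multiple in this subgroup. -/
def Sat (S : Set (Place k F)) : Set (Pic k F) := {c | ∃ m : ℕ, 0 < m ∧ m • c ∈ Gen S}

/-- The exterior product `A × B` of two divisors, as a zero-cycle on `C × C`. -/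
def prd (A B : Place k F →₀ ℤ) : (Bool → Place k F) →₀ ℤ :=
  A.sum fun p m => B.sum fun q n => Finsupp.single (pair (L := fun _ => F) p q) (m * n)

/-- The zero-cycle `z + z'` is torsion in the Chow group of `C × C`, where `z'` is the image of `z` under
the exchange of the two factors. -/
def SymTor (z : (Bool → Place k F) →₀ ℤ) : Prop :=
  RatTor (fun _ : Bool => F) (z + z.mapDomain swap)

/-- The group of the zero-cycles on the Picard group of `C` which are rationally equivalent to zero: it
is generated by the images of the divisors of functions on curves in `C × ... × C` under the maps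
`(p_1, ..., p_n) ↦ p_1 + ... + p_n - c`. -/
def RatJac (k F : Type) [Field k] [Field F] [Algebra k F] : AddSubgroup (Pic k F →₀ ℤ) :=
  AddSubgroup.closure {z | ∃ (ι : Type) (_ : Fintype ι) (c : Pic k F) (w : (ι → Place k F) →₀ ℤ),
    DivOf (fun _ : ι => F) w ∧ z = w.mapDomain fun a => cls (∑ i, Finsupp.single (a i) 1) - c}

/-- The zero-cycle `z` on the Picard group of `C` is torsion modulo rational equivalence. -/
def TorJac (z : Pic k F →₀ ℤ) : Prop := ∃ m : ℕ, 0 < m ∧ m • z ∈ RatJac k F

/-- The zero-cycle `z` on the Picard group has degree zero, and the sum of its points is zero. -/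
def Null (z : Pic k F →₀ ℤ) : Prop := (z.sum fun _ n => n) = 0 ∧ (z.sum fun c n => n • c) = 0

/-- The rank of a subgroup of an abelian group. -/
def rk {M : Type} [AddCommGroup M] (G : AddSubgroup M) : ℕ := Module.finrank ℤ G

end Pool.Agent.R22
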