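import Pool.Agent.R22.Rel
import Pool.Agent.FPZ.Deg

/-!
# Curves of genus two: divisors of degree two are equivalent to effective divisors
-/

set_option autoImplicit false

noncomputable section

namespace Pool.Agent.R22

open Pool.Agent.ZCyc Pool.Agent.Dess Pool.Agent.Dess4 Pool.Agent.FPZ Polynomial Module
open scoped Classical

variable {k F : Type} [Field k] [IsAlgClosed k] [CharZero k] [Field F] [Algebra k F]

/-- one condition cuts the dimension down by at most one -/
lemma eff_step (hF : IsCurve k F) {v : Place k F} {π : F} (hπ : IsUnif v π) (a : F) (M : ℕ)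
    (V : Submodule k F) [FiniteDimensional k V] (hV : ∀ f ∈ V, f * a * π ^ (M + 1) ∈ v.ring) :
    ∃ V' ≤ V, finrank k V ≤ finrank k V' + 1 ∧ ∀ f ∈ V', f * a * π ^ M ∈ v.ring := by
  have hex : ∀ f : V, ∃ c, v.At ((f : F) * a * π ^ (M + 1)) c :=
    fun f => exists_at hF v (hV f f.2)
  choose l hl using hex
  let L : V →ₗ[k] k :=
    { toFun := l
      map_add' := by
        intro f g
        apply (hl (f + g)).unique
        have := (hl f).add (hl g)
        rwa [← add_mul, ← add_mul] at this
      map_smul' := by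
        intro c f
        apply (hl (c • f)).unique
        have := (Place.at_const (v := v) c).mul (hl f)
        rw [← mul_assoc, ← mul_assoc, ← Algebra.smul_def] at this
        simpa using this }
  refine ⟨(LinearMap.ker L).map V.subtype, Submodule.map_subtype_le V _, ?_, ?_⟩
  · rw [Submodule.finrank_map_subtype_eq, ← LinearMap.finrank_range_add_finrank_ker L, add_comm]
    have h1 := Submodule.finrank_le (LinearMap.range L)
    rw [Module.finrank_self] at h1
    omega
  · rintro f ⟨g, hg, rfl⟩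
    have h1 : l g = 0 := hg
    have h2 := hl g
    rw [h1, Place.at_zero_iff] at h2
    have h3 := hπ.2.2 _ h2
    have h4 : (g : F) * a * π ^ (M + 1) / π = (g : F) * a * π ^ M := by
      rw [pow_succ, ← mul_assoc, mul_div_assoc, div_self hπ.1, mul_one]
    rw [h4] at h3
    exact h3

lemma eff_steps (hF : IsCurve k F) {v : Place k F} {π : F} (hπ : IsUnif v π) (a : F) (M : ℕ) :
    ∀ (V : Submodule k F) [FiniteDimensional k V], (∀ f ∈ V, f * a * π ^ M ∈ v.ring) →
      ∃ V' ≤ V, finrank k V ≤ finrank k V' + M ∧ ∀ f ∈ V', f * a ∈ v.ring := by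
  induction M with
  | zero =>
    intro V _ hV
    refine ⟨V, le_rfl, by omega, fun f hf => ?_⟩
    simpa using hV f hf
  | succ M ih =>
    intro V _ hV
    obtain ⟨V₁, h1, h2, h3⟩ := eff_step hF hπ a M V hV
    haveI : FiniteDimensional k V₁ := Submodule.finiteDimensional_of_le h1
    obtain ⟨V', h4, h5, h6⟩ := ih V₁ h3
    exact ⟨V', h4.trans h1, by omega, h6⟩

/-- finitely many conditions -/
lemma eff_places (hF : IsCurve k F) {π : Place k F → F} (hπ : ∀ v, IsUnif v (π v))
    (a : Place k F → F) (M : Place k F → ℕ) (T : Finset (Place k F)) :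
    ∀ (V : Submodule k F) [FiniteDimensional k V],
      (∀ v ∈ T, ∀ f ∈ V, f * a v * π v ^ M v ∈ v.ring) →
      ∃ V' ≤ V, finrank k V ≤ finrank k V' + ∑ v ∈ T, M v ∧
        ∀ f ∈ V', ∀ v ∈ T, f * a v ∈ v.ring := by
  induction T using Finset.induction_on with
  | empty =>
    intro V _ hV
    exact ⟨V, le_rfl, by simp, by simp⟩
  | insert b T hb ih =>
    intro V _ hV
    obtain ⟨V₁, h1, h2, h3⟩ := ih V fun v hv => hV v (Finset.mem_insert_of_mem hv)
    haveI : FiniteDimensional k V₁ := Submodule.finiteDimensional_of_le h1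
    obtain ⟨V', h4, h5, h6⟩ := eff_steps hF (hπ b) (a b) (M b) V₁
      fun f hf => hV b (Finset.mem_insert_self b T) f (h1 hf)
    refine ⟨V', h4.trans h1, ?_, ?_⟩
    · rw [Finset.sum_insert hb]
      omega
    · intro f hf v hv
      rcases Finset.mem_insert.1 hv with rfl | hv
      · exact h6 f hf
      · exact h3 f (h4 hf) v hv

/-- the functions `A(x) + B(x) y` with polynomials of degrees less than `m` and `n` -/
def polyMap (x y : F) (m n : ℕ) : (degreeLT k m × degreeLT k n) →ₗ[k] F :=
  LinearMap.coprod ((aeval x).toLinearMap.comp (degreeLT k m).subtype)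
    ((LinearMap.mulRight k y).comp ((aeval x).toLinearMap.comp (degreeLT k n).subtype))

omit [IsAlgClosed k] [CharZero k] in
theorem polyMap_apply (x y : F) (m n : ℕ) (p : degreeLT k m × degreeLT k n) :
    polyMap x y m n p = aeval x (p.1 : k[X]) + aeval x (p.2 : k[X]) * y := rfl

variable {f : k[X]} {x y : F}

omit [IsAlgClosed k] [CharZero k] in
theorem polyMap_injective (hx : Transcendental k x) (hy : y ∉ IntermediateField.adjoin k {x})
    (m n : ℕ) : Function.Injective (polyMap (k := k) x y m n) := by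
  rw [← LinearMap.ker_eq_bot, LinearMap.ker_eq_bot']
  rintro ⟨⟨A, hA⟩, ⟨B, hB⟩⟩ h
  rw [polyMap_apply] at h
  change aeval x A + aeval x B * y = 0 at h
  have hB0 : B = 0 := by
    by_contra hB0
    have h1 : aeval x B ≠ 0 := by
      intro h2
      exact hB0 ((transcendental_iff_injective.1 hx) (by rw [h2, map_zero]))
    apply hy
    have h2 : y = -(aeval x A) / aeval x B := by
      rw [eq_div_iff h1]
      linear_combination h
    rw [h2]
    exact div_mem (neg_mem (aeval_mem_adj A x)) (aeval_mem_adj B x)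
  subst hB0
  rw [map_zero, zero_mul, add_zero] at h
  have hA0 : A = 0 := (transcendental_iff_injective.1 hx) (by rw [h, map_zero])
  subst hA0
  rfl

omit [IsAlgClosed k] [CharZero k] in
theorem finrank_polyMap (hx : Transcendental k x) (hy : y ∉ IntermediateField.adjoin k {x})
    (m n : ℕ) : finrank k (LinearMap.range (polyMap (k := k) x y m n)) = m + n := by
  have h1 : ∀ m : ℕ, finrank k (degreeLT k m) = m := fun m => by
    rw [(degreeLTEquiv k m).finrank_eq, Module.finrank_fin_fun]
  have h2 : ∀ m : ℕ, FiniteDimensional k (degreeLT k m) := fun m =>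
    LinearEquiv.finiteDimensional (degreeLTEquiv k m).symm
  have := h2 m
  have := h2 n
  rw [LinearMap.finrank_range_of_inj (polyMap_injective hx hy m n), Module.finrank_prod, h1, h1]

omit [IsAlgClosed k] [CharZero k] in
theorem dgq_eq_sum (K : Place k F →₀ ℤ) : dgq K = K.sum fun _ m => m := by
  rw [dgq, Finsupp.liftAddHom_apply]
  rfl

/-- the order of a regular function -/
theorem ord_nonneg {v : Place k F} {g : F} (hg : g ≠ 0) {n : ℤ} (h : HasOrd v g n)
    (hr : g ∈ v.ring) : 0 ≤ n := by
  have h1 := (deg_sign (inv_ne_zero hg) (deg_ord_inv h)).1 (by rwa [inv_inv])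
  omega

omit [IsAlgClosed k] [CharZero k] in
/-- the power of a uniformizer -/
theorem ord_zpow {v : Place k F} {π : F} (hπ : IsUnif v π) (n : ℤ) : HasOrd v (π ^ n) n := by
  refine ⟨π, hπ, ?_, ?_⟩
  · rw [div_self (zpow_ne_zero n hπ.1)]
    exact one_mem _
  · rw [div_self (zpow_ne_zero n hπ.1), inv_one]
    exact one_mem _

/-- a function in the space is regular at the finite points -/
theorem poly_fin (h : HypField f x y) {v : Place k F} (hv : x ∈ v.ring) {m n : ℕ} {g : F}
    (hg : g ∈ LinearMap.range (polyMap (k := k) x y m n)) : g ∈ v.ring := by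
  obtain ⟨p, rfl⟩ := hg
  obtain ⟨c, hc⟩ := exists_at h.curve v hv
  obtain ⟨b, hb, -⟩ := h.at_y hc
  rw [polyMap_apply]
  exact add_mem (hc.aeval _).mem (mul_mem (hc.aeval _).mem hb.mem)

/-- the poles of the functions in the space -/
theorem poly_inf (h : HypField f x y) (hf : f.natDegree ≤ 6) {v : Place k F} (hv : x ∉ v.ring)
    {N : ℕ} (hN : 3 ≤ N) {g : F}
    (hg : g ∈ LinearMap.range (polyMap (k := k) x y (N + 1) (N - 2))) : g / x ^ N ∈ v.ring := by
  obtain ⟨⟨⟨A, hA⟩, ⟨B, hB⟩⟩, rfl⟩ := hg
  have hx0 := transc_ne h.transc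
  rw [polyMap_apply]
  change (aeval x A + aeval x B * y) / x ^ N ∈ v.ring
  have hA' : A.natDegree ≤ N := by
    rcases eq_or_ne A 0 with rfl | hA0
    · simp
    · rw [mem_degreeLT, degree_eq_natDegree hA0] at hA
      have : A.natDegree < N + 1 := by exact_mod_cast hA
      omega
  have hB' : B.natDegree ≤ N - 3 := by
    rcases eq_or_ne B 0 with rfl | hB0
    · simp
    · rw [mem_degreeLT, degree_eq_natDegree hB0] at hB
      have : B.natDegree < N - 2 := by exact_mod_cast hB
      omega
  have h2 := at_inf hx0 hv (p := f) (N := 2 * 3) hf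
  have h3 : (y / x ^ 3) ^ 2 ∈ v.ring := by
    rw [div_pow, h.eq, ← pow_mul, mul_comm 3 2]
    exact h2.mem
  have h4 : y / x ^ 3 ∈ v.ring := mem_of_pow two_pos h3
  have h5 : (aeval x A + aeval x B * y) / x ^ N =
      aeval x A / x ^ N + aeval x B / x ^ (N - 3) * (y / x ^ 3) := by
    rw [add_div, div_mul_div_comm, ← pow_add, Nat.sub_add_cancel hN]
  rw [h5]
  exact add_mem (at_inf hx0 hv hA').mem (mul_mem (at_inf hx0 hv hB').mem h4)

/-- **Riemann-Roch** for divisors of degree two without zeros at the finite points. -/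
theorem exists_fun (h : HypField f x y) (hy : y ∉ IntermediateField.adjoin k {x})
    (hf : f.natDegree ≤ 6) (D : Place k F →₀ ℤ) (hfin : ∀ v, x ∈ v.ring → D v ≤ 0)
    (hdeg : dgq D = 2) : ∃ g : F, g ≠ 0 ∧ ∀ v n, HasOrd v g n → 0 ≤ D v + n := by
  have hx0 := transc_ne h.transc
  have hxt : Transcendental k x⁻¹ := by
    intro h1
    apply h.transc
    have := h1.inv
    rwa [inv_inv] at this
  choose π hπ using fun v => exists_unif h.curve v
  obtain ⟨E, hE⟩ := exists_div h.curve (inv_ne_zero hx0)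
  have hinf : ∀ v, x ∉ v.ring ↔ 0 < E v := by
    intro v
    have h1 := deg_sign (inv_ne_zero hx0) (hE v)
    rw [inv_inv] at h1
    rw [h1, not_le]
  set T := D.support ∪ E.support with hT
  have hE2 : ∑ v ∈ T, (E v).toNat = 2 := by
    rw [zeros_finrank h.curve (inv_ne_zero hx0) hxt hE (S := T) (fun v hv =>
      Finset.mem_union_right _ (Finsupp.mem_support_iff.2 hv.ne')), adjoin_inv, finrank_two h hy]
  set N : ℕ := 3 + ∑ v ∈ T, (D v).natAbs with hN
  have hDN : ∀ v ∈ T, D v ≤ N := by
    intro v hv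
    have h1 := Finset.single_le_sum (f := fun v => (D v).natAbs) (fun _ _ => Nat.zero_le _) hv
    have h2 : (D v).natAbs ≤ N := by
      rw [hN]
      exact h1.trans (Nat.le_add_left _ _)
    omega
  have hM : ∀ v ∈ T, 0 ≤ (N : ℤ) * (E v).toNat - D v := by
    intro v hv
    by_cases hxv : x ∈ v.ring
    · have h1 := hfin v hxv
      have h2 : (0 : ℤ) ≤ (N : ℤ) * (E v).toNat := by positivity
      linarith
    · have h1 := (hinf v).1 hxv
      have h2 := hDN v hv
      have h3 : (1 : ℤ) ≤ (E v).toNat := by omega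
      nlinarith
  have hsum : ((∑ v ∈ T, ((N : ℤ) * (E v).toNat - D v).toNat : ℕ) : ℤ) = 2 * N - 2 := by
    rw [Nat.cast_sum, Finset.sum_congr rfl fun v hv => Int.toNat_of_nonneg (hM v hv),
      Finset.sum_sub_distrib, ← Finset.mul_sum]
    have h1 : (∑ v ∈ T, ((E v).toNat : ℤ)) = 2 := by exact_mod_cast hE2
    have h2 : ∑ v ∈ T, D v = 2 := by
      rw [← hdeg, dgq_eq_sum, Finsupp.sum]
      symm
      apply Finset.sum_subset Finset.subset_union_left
      intro v _ hv
      exact Finsupp.notMem_support_iff.1 hv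
    rw [h1, h2]
    ring
  have hfd : FiniteDimensional k (LinearMap.range (polyMap (k := k) x y (N + 1) (N - 2))) := by
    apply FiniteDimensional.of_finrank_pos
    rw [finrank_polyMap h.transc hy]
    omega
  obtain ⟨V', h1, h2, h3⟩ := eff_places h.curve hπ (fun v => π v ^ D v)
    (fun v => ((N : ℤ) * (E v).toNat - D v).toNat) T
    (LinearMap.range (polyMap (k := k) x y (N + 1) (N - 2))) (by
    intro v hv g hg
    have hπ0 := (hπ v).1
    have e1 : g * π v ^ D v * π v ^ ((N : ℤ) * (E v).toNat - D v).toNat =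
        g * (π v ^ (E v).toNat) ^ N := by
      rw [← zpow_natCast (π v) ((N : ℤ) * (E v).toNat - D v).toNat, Int.toNat_of_nonneg (hM v hv),
        mul_assoc, ← zpow_add₀ hπ0, add_sub_cancel, ← pow_mul, mul_comm (E v).toNat N,
        ← zpow_natCast]
      push_cast
      rfl
    rw [e1]
    by_cases hxv : x ∈ v.ring
    · have e2 : (E v).toNat = 0 := by
        have := (hinf v).not.1 (not_not.2 hxv)
        omega
      rw [e2, pow_zero, one_pow, mul_one]
      exact poly_fin h hxv hg
    · have e2 := (hinf v).1 hxv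
      have e3 := (deg_ord (hπ v) (hE v)).2
      have e4 : π v ^ E v = π v ^ (E v).toNat := by
        rw [← zpow_natCast]
        congr 1
        omega
      rw [e4] at e3
      have e5 : g * (π v ^ (E v).toNat) ^ N =
          g / x ^ N * ((x⁻¹ / π v ^ (E v).toNat)⁻¹) ^ N := by
        rw [inv_div, div_inv_eq_mul, mul_pow, mul_comm ((π v ^ (E v).toNat) ^ N), ← mul_assoc,
          div_mul_cancel₀ _ (pow_ne_zero N hx0)]
      rw [e5]
      exact mul_mem (poly_inf h hf hxv (by omega) hg) (pow_mem e3 N))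
  rw [finrank_polyMap h.transc hy] at h2
  have h4 : 0 < finrank k V' := by
    have h5 : ∑ v ∈ T, ((N : ℤ) * (E v).toNat - D v).toNat = 2 * N - 2 := by omega
    rw [h5] at h2
    omega
  haveI : FiniteDimensional k V' := Submodule.finiteDimensional_of_le h1
  obtain ⟨⟨g, hg⟩, hg0⟩ := (Module.finrank_pos_iff_exists_ne_zero (R := k)).1 h4
  have hg0' : g ≠ 0 := by
    rintro rfl
    exact hg0 rfl
  refine ⟨g, hg0', fun v n hn => ?_⟩
  by_cases hv : v ∈ T
  · have e1 := h3 g hg v hv
    have e2 := ord_mul hn (ord_zpow (hπ v) (D v))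
    have e3 := ord_nonneg (mul_ne_zero hg0' (zpow_ne_zero _ (hπ v).1)) e2 e1
    omega
  · have hD0 : D v = 0 := by
      by_contra h5
      exact hv (Finset.mem_union_left _ (Finsupp.mem_support_iff.2 h5))
    have hE0 : E v = 0 := by
      by_contra h5
      exact hv (Finset.mem_union_right _ (Finsupp.mem_support_iff.2 h5))
    have hxv : x ∈ v.ring := by
      by_contra h5
      have := (hinf v).1 h5
      omega
    have e1 := poly_fin h hxv (h1 hg)
    have e3 := ord_nonneg hg0' hn e1
    omega

omit [IsAlgClosed k] [CharZero k] in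
/-- an effective divisor of positive degree contains a point -/
theorem eff_split {E : Place k F →₀ ℤ} (hE : ∀ v, 0 ≤ E v) {n : ℤ} (hn : 0 < n)
    (hd : dgq E = n) : ∃ p, (∀ v, 0 ≤ (E - Finsupp.single p 1 : Place k F →₀ ℤ) v) ∧
      dgq (E - Finsupp.single p 1) = n - 1 := by
  have h1 : ∃ p, 0 < E p := by
    by_contra hcon
    push Not at hcon
    have h2 : E = 0 := by
      ext v
      exact le_antisymm (hcon v) (hE v)
    rw [h2, map_zero] at hd
    omega
  obtain ⟨p, hp⟩ := h1
  refine ⟨p, fun v => ?_, ?_⟩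
  · rw [Finsupp.sub_apply]
    rcases eq_or_ne v p with rfl | hv
    · rw [Finsupp.single_eq_same]
      omega
    · rw [Finsupp.single_eq_of_ne hv, sub_zero]
      exact hE v
  · rw [map_sub, hd, dgq_single]

omit [IsAlgClosed k] [CharZero k] in
/-- an effective divisor of degree two is a sum of two points -/
theorem eff_two {E : Place k F →₀ ℤ} (hE : ∀ v, 0 ≤ E v) (hd : dgq E = 2) :
    ∃ p q, E = Finsupp.single p 1 + Finsupp.single q 1 := by
  obtain ⟨p, h1, h2⟩ := eff_split hE two_pos hd
  obtain ⟨q, h3, h4⟩ := eff_split h1 (n := 2 - 1) one_pos h2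
  refine ⟨p, q, ?_⟩
  have h5 : E - Finsupp.single p 1 - Finsupp.single q 1 = 0 := by
    by_contra h6
    have h7 : ∃ v, (E - Finsupp.single p 1 - Finsupp.single q 1 : Place k F →₀ ℤ) v ≠ 0 := by
      by_contra h8
      push Not at h8
      exact h6 (Finsupp.ext h8)
    obtain ⟨v, hv⟩ := h7
    have h8 : 0 < dgq (E - Finsupp.single p 1 - Finsupp.single q 1) := by
      rw [dgq_eq_sum, Finsupp.sum]
      refine Finset.sum_pos' (fun v _ => h3 v) ⟨v, Finsupp.mem_support_iff.2 hv, ?_⟩
      exact lt_of_le_of_ne (h3 v) (Ne.symm hv)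
    rw [h4] at h8
    omega
  rw [sub_sub, sub_eq_zero] at h5
  exact h5

/-- the degree of a divisor of a function -/
theorem dgq_div (hF : IsCurve k F) {g : F} (hg : g ≠ 0) {D : Place k F →₀ ℤ}
    (hD : ∀ v, HasOrd v g (D v)) : dgq D = 0 := by
  rw [dgq_eq_sum, Finsupp.sum]
  refine degree_zero hF hg D.support D (fun v _ => hD v) fun v hv => ?_
  rw [← Finsupp.notMem_support_iff.1 hv]
  exact hD v

/-- the zeros at the finite points can be removed -/
theorem exists_neg (h : HypField f x y) (D : Place k F →₀ ℤ) :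
    ∃ (g : F) (G : Place k F →₀ ℤ), g ≠ 0 ∧ (∀ v, HasOrd v g (G v)) ∧
      ∀ v, x ∈ v.ring → (D - G) v ≤ 0 := by
  have hc : ∀ v : Place k F, ∃ c : k, x ∈ v.ring → v.At x c := by
    intro v
    by_cases hv : x ∈ v.ring
    · obtain ⟨c, hc⟩ := exists_at h.curve v hv
      exact ⟨c, fun _ => hc⟩
    · exact ⟨0, fun h => absurd h hv⟩
  choose c hc using hc
  have hne : ∀ c : k, x - algebraMap k F c ≠ 0 := fun c => transc_ne (transc_sub h.transc c)
  set g : F := ∏ v ∈ D.support, (x - algebraMap k F (c v)) ^ (D v).toNat with hg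
  have hg0 : g ≠ 0 := Finset.prod_ne_zero_iff.2 fun v _ => pow_ne_zero _ (hne _)
  obtain ⟨G, hG⟩ := exists_div h.curve hg0
  refine ⟨g, G, hg0, hG, fun v hv => ?_⟩
  have hreg : ∀ c : k, x - algebraMap k F c ∈ v.ring := fun c => sub_mem hv (v.const_mem c)
  rw [Finsupp.sub_apply]
  by_cases hDv : 0 < D v
  · have hmem : v ∈ D.support := Finsupp.mem_support_iff.2 hDv.ne'
    have h1 : g = (x - algebraMap k F (c v)) ^ (D v).toNat *
        ∏ w ∈ D.support.erase v, (x - algebraMap k F (c w)) ^ (D w).toNat :=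
      (Finset.mul_prod_erase _ _ hmem).symm
    obtain ⟨m, hm⟩ := exists_hasOrd h.curve v (hne (c v))
    have hm1 : 0 < m := ord_pos hm (hne (c v)) (hc v hv)
    have h0 : ∏ w ∈ D.support.erase v, (x - algebraMap k F (c w)) ^ (D w).toNat ≠ 0 :=
      Finset.prod_ne_zero_iff.2 fun v _ => pow_ne_zero _ (hne _)
    obtain ⟨l, hl⟩ := exists_hasOrd h.curve v h0
    have hl0 := ord_nonneg h0 hl (prod_mem fun w _ => pow_mem (hreg _) _)
    have h2 := ord_mul (Pool.Agent.FPZ.ord_pow hm (D v).toNat) hl
    rw [← h1] at h2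
    have h3 := hasOrd_unique h.curve hg0 (hG v) h2
    rw [h3]
    have h4 : D v ≤ m * ((D v).toNat : ℕ) := by
      rw [Int.toNat_of_nonneg hDv.le]
      nlinarith
    omega
  · have h1 := ord_nonneg hg0 (hG v) (prod_mem fun w _ => pow_mem (hreg _) _)
    omega

/-- **Every divisor of degree two is linearly equivalent to a sum of two points.** -/
theorem exists_two (h : HypField f x y) (hy : y ∉ IntermediateField.adjoin k {x})
    (hf : f.natDegree ≤ 6) {D : Place k F →₀ ℤ} (hd : dgq D = 2) :
    ∃ p q, unq (D - (Finsupp.single p 1 + Finsupp.single q 1)) ∈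
      RatEq (k := k) fun _ : Unit => F := by
  obtain ⟨g, G, hg, hG, hneg⟩ := exists_neg h D
  have hd' : dgq (D - G) = 2 := by rw [map_sub, hd, dgq_div h.curve hg hG, sub_zero]
  obtain ⟨g', hg', hord⟩ := exists_fun h hy hf (D - G) hneg hd'
  obtain ⟨G', hG'⟩ := exists_div h.curve hg'
  obtain ⟨p, q, hpq⟩ := eff_two (E := D - G + G') (fun v => hord v _ (hG' v)) (by
    rw [map_add, hd', dgq_div h.curve hg' hG', add_zero])
  refine ⟨p, q, ?_⟩
  rw [← hpq, show D - (D - G + G') = G - G' by abel, map_sub]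
  exact sub_mem (unq_div_mem h.curve hg hG) (unq_div_mem h.curve hg' hG')

end Pool.Agent.R22
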