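import Pool.Agent.R22.Eff
import Pool.Agent.Dess.Pole

/-!
# Divisors with many points are equivalent to effective divisors
-/

set_option autoImplicit false

noncomputable section

namespace Pool.Agent.R22

open Pool.Agent.ZCyc Pool.Agent.Dess Pool.Agent.Dess4 Pool.Agent.FPZ Polynomial Module
open scoped Classical

variable {k F : Type} [Field k] [IsAlgClosed k] [CharZero k] [Field F] [Algebra k F]

/-- the functions `A(w)` with polynomials of degree less than `m` -/
def polyOne (w : F) (m : ℕ) : degreeLT k m →ₗ[k] F :=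
  (aeval w).toLinearMap.comp (degreeLT k m).subtype

omit [IsAlgClosed k] [CharZero k] in
theorem polyOne_injective {w : F} (hw : Transcendental k w) (m : ℕ) :
    Function.Injective (polyOne (k := k) w m) := by
  rw [← LinearMap.ker_eq_bot, LinearMap.ker_eq_bot']
  rintro ⟨A, hA⟩ h
  change aeval w A = 0 at h
  have hA0 : A = 0 := (transcendental_iff_injective.1 hw) (by rw [h, map_zero])
  subst hA0
  rfl

omit [IsAlgClosed k] [CharZero k] in
theorem finrank_polyOne {w : F} (hw : Transcendental k w) (m : ℕ) :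
    finrank k (LinearMap.range (polyOne (k := k) w m)) = m := by
  rw [LinearMap.finrank_range_of_inj (polyOne_injective hw m), (degreeLTEquiv k m).finrank_eq,
    Module.finrank_fin_fun]

/-- a function with poles at the divisor `D` and one more point -/
theorem exists_fun_gen (hF : IsCurve k F) (o : Place k F) (D : Place k F →₀ ℤ) :
    ∃ g : F, g ≠ 0 ∧ ∀ v, v ≠ o → ∀ n, HasOrd v g n → 0 ≤ D v + n := by
  obtain ⟨w, hw, hreg⟩ := exists_single_pole hF o
  choose π hπ using fun v => exists_unif hF v
  set T := D.support.erase o with hT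
  set d : ℕ := ∑ v ∈ T, (-D v).toNat with hd
  have hVreg : ∀ v, v ≠ o → ∀ g ∈ LinearMap.range (polyOne (k := k) w (d + 1)), g ∈ v.ring := by
    rintro v hv _ ⟨A, rfl⟩
    obtain ⟨c, hc⟩ := exists_at hF v (hreg v hv)
    exact (hc.aeval (A : k[X])).mem
  have hfd : FiniteDimensional k (LinearMap.range (polyOne (k := k) w (d + 1))) := by
    apply FiniteDimensional.of_finrank_pos
    rw [finrank_polyOne hw]
    omega
  obtain ⟨V', h1, h2, h3⟩ := eff_places hF hπ (fun v => π v ^ D v) (fun v => (-D v).toNat) T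
    (LinearMap.range (polyOne (k := k) w (d + 1))) (by
    intro v hv g hg
    have hvo : v ≠ o := Finset.ne_of_mem_erase hv
    have e1 : g * π v ^ D v * π v ^ (-D v).toNat = g * π v ^ (D v).toNat := by
      rw [mul_assoc, ← zpow_natCast, ← zpow_natCast, ← zpow_add₀ (hπ v).1]
      congr 2
      omega
    rw [e1]
    exact mul_mem (hVreg v hvo g hg) (pow_mem (hπ v).2.1.mem _))
  rw [finrank_polyOne hw, ← hd] at h2
  have h4 : 0 < finrank k V' := by omega
  haveI : FiniteDimensional k V' := Submodule.finiteDimensional_of_le h1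
  obtain ⟨⟨g, hg⟩, hg0⟩ := (Module.finrank_pos_iff_exists_ne_zero (R := k)).1 h4
  have hg0' : g ≠ 0 := by
    rintro rfl
    exact hg0 rfl
  refine ⟨g, hg0', fun v hvo n hn => ?_⟩
  by_cases hv : v ∈ T
  · have e1 := h3 g hg v hv
    have e2 := ord_mul hn (ord_zpow (hπ v) (D v))
    have e3 := ord_nonneg (mul_ne_zero hg0' (zpow_ne_zero _ (hπ v).1)) e2 e1
    omega
  · have hD0 : D v = 0 := by
      by_contra h5
      exact hv (Finset.mem_erase.2 ⟨hvo, Finsupp.mem_support_iff.2 h5⟩)
    have e3 := ord_nonneg hg0' hn (hVreg v hvo g (h1 hg))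
    omega

omit [IsAlgClosed k] [CharZero k] in
/-- an effective divisor is a sum of points -/
theorem eff_sum (N : ℕ) : ∀ {E : Place k F →₀ ℤ}, (∀ v, 0 ≤ E v) → dgq E = N →
    ∃ P : Fin N → Place k F, E = ∑ i, Finsupp.single (P i) 1 := by
  induction N with
  | zero =>
    intro E hE hd
    refine ⟨Fin.elim0, ?_⟩
    rw [Finset.univ_eq_empty, Finset.sum_empty]
    by_contra h6
    have h7 : ∃ v, E v ≠ 0 := by
      by_contra h8
      push Not at h8
      exact h6 (Finsupp.ext h8)
    obtain ⟨v, hv⟩ := h7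
    have h8 : 0 < dgq E := by
      rw [dgq_eq_sum, Finsupp.sum]
      refine Finset.sum_pos' (fun v _ => hE v) ⟨v, Finsupp.mem_support_iff.2 hv, ?_⟩
      exact lt_of_le_of_ne (hE v) (Ne.symm hv)
    rw [hd] at h8
    simp at h8
  | succ N ih =>
    intro E hE hd
    obtain ⟨p, h1, h2⟩ := eff_split hE (n := ((N + 1 : ℕ) : ℤ)) (by positivity) hd
    obtain ⟨P, hP⟩ := ih h1 (by
      rw [h2]
      push_cast
      ring)
    refine ⟨Fin.cons p P, ?_⟩
    rw [Fin.sum_univ_succ]
    simp only [Fin.cons_zero, Fin.cons_succ]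
    rw [← hP]
    abel

/-- **A form of the theorem of Riemann**: a divisor of degree zero and a large multiple of a point. -/
theorem exists_eff (hF : IsCurve k F) (o : Place k F) {D : Place k F →₀ ℤ} (hD : dgq D = 0) :
    ∃ N₀ : ℕ, ∀ N ≥ N₀, ∃ P : Fin N → Place k F,
      unq (D + Finsupp.single o (N : ℤ) - ∑ i, Finsupp.single (P i) 1) ∈
        RatEq (k := k) fun _ : Unit => F := by
  obtain ⟨g, hg, hord⟩ := exists_fun_gen hF o D
  obtain ⟨G, hG⟩ := exists_div hF hg
  refine ⟨(-D o - G o).toNat, fun N hN => ?_⟩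
  obtain ⟨P, hP⟩ := eff_sum N (E := D + Finsupp.single o (N : ℤ) + G) (fun v => by
    rw [Finsupp.add_apply, Finsupp.add_apply]
    rcases eq_or_ne v o with rfl | hv
    · rw [Finsupp.single_eq_same]
      omega
    · rw [Finsupp.single_eq_of_ne hv, add_zero]
      exact hord v hv _ (hG v)) (by
    rw [map_add, map_add, hD, dgq_single, dgq_div hF hg hG]
    ring)
  refine ⟨P, ?_⟩
  rw [← hP, show D + Finsupp.single o (N : ℤ) - (D + Finsupp.single o (N : ℤ) + G) = -G by abel,
    map_neg]
  exact neg_mem (unq_div_mem hF hg hG)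

end Pool.Agent.R22
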