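import Pool.Agent.Dess4.Quadric
import Pool.Agent.FPZ.Defs

/-!
# Zero-cycles supported on points on no quadric
-/

set_option autoImplicit false

noncomputable section

namespace Pool.Agent.R22

open Pool.Agent.ZCyc Pool.Agent.Dess Pool.Agent.Dess4 Pool.Agent.FPZ
open scoped Classical

variable {k F : Type} [Field k] [IsAlgClosed k] [CharZero k] [Field F] [Algebra k F]

/-- **Zero-cycles supported on points on no quadric.** -/
theorem nq_albKer {S : Set (Place k F)} (hS : NoQuadric S) {z : (Bool → Place k F) →₀ ℤ}
    (hz : AlbKer (fun _ : Bool => F) z) (hs : ∀ a ∈ z.support, ∀ i, a i ∈ S) :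
    RatTor (fun _ : Bool => F) (z + z.mapDomain swap) := by
  change _ ∈ torGroup fun _ : Bool => F
  rw [← QuotientAddGroup.eq_zero_iff]
  by_contra h0
  obtain ⟨l, hl⟩ := exists_functional (fun n x hn hx => quo_tf (k := k) (F := F) hn hx) h0
  have key : ∀ p ∈ S, ∀ q ∈ S, l (bt p q) + l (bt q p) - (l (bt p p) + l (bt q q)) = 0 := by
    intro p hp q hq
    rw [← form_pt]
    refine hS (fun p q => form l (pt p) (pt q)) (fun x y => ?_) (fun x hx y => ?_)
      (fun p _ => ?_) p hp q hq
    · rw [form_apply, form_apply]
      ring
    · rw [form_sum, form_apply, cross_left hx, cross_right hx, diaq_ratEq hx, degq_ratEq hx,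
        map_zero]
      ring
    · rw [form_pt]
      ring
  have e1 : ∀ z : (Bool → Place k F) →₀ ℤ,
      l (QuotientAddGroup.mk (z + z.mapDomain swap) : Quo k F) =
        z.sum fun a n => (n : ℚ) * (l (bt (a false) (a true)) + l (bt (a true) (a false))) := by
    intro z
    induction z using Finsupp.induction_linear with
    | zero => simp
    | add A B hA hB =>
      rw [Finsupp.sum_add_index' (by simp) (by intros; push_cast; ring), ← hA, ← hB, ← map_add,
        ← QuotientAddGroup.mk_add, Finsupp.mapDomain_add]
      congr 2
      abel
    | single a n =>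
      rw [Finsupp.sum_single_index (by simp), Finsupp.mapDomain_single]
      have h1 : ∀ a : Bool → Place k F, (QuotientAddGroup.mk (Finsupp.single a n) : Quo k F) =
          n • bt (a false) (a true) := by
        intro a
        rw [bt, ← QuotientAddGroup.mk_zsmul, Finsupp.smul_single, smul_eq_mul, mul_one]
        congr 2
        funext i
        cases i <;> rfl
      rw [QuotientAddGroup.mk_add, h1, h1, map_add, map_zsmul, map_zsmul, zsmul_eq_mul,
        zsmul_eq_mul]
      change (n : ℚ) * l (bt (a false) (a true)) + n * l (bt (a true) (a false)) = _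
      ring
  have e2 : ∀ (i : Bool) (z : (Bool → Place k F) →₀ ℤ),
      l (diaq (z.mapDomain fun p (_ : Unit) => p i)) =
        z.sum fun a n => (n : ℚ) * l (bt (a i) (a i)) := by
    intro i z
    induction z using Finsupp.induction_linear with
    | zero => simp
    | add A B hA hB =>
      rw [Finsupp.sum_add_index' (by simp) (by intros; push_cast; ring), ← hA, ← hB,
        Finsupp.mapDomain_add, map_add, map_add]
    | single a n =>
      rw [Finsupp.sum_single_index (by simp), Finsupp.mapDomain_single, diaq, mapq_single,
        map_zsmul, zsmul_eq_mul]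
      rfl
  apply hl
  rw [e1]
  have e3 : (z.sum fun a n => (n : ℚ) * (l (bt (a false) (a true)) + l (bt (a true) (a false)))) =
      (z.sum fun a n => (n : ℚ) * l (bt (a false) (a false))) +
        z.sum fun a n => (n : ℚ) * l (bt (a true) (a true)) := by
    rw [Finsupp.sum, Finsupp.sum, Finsupp.sum, ← Finset.sum_add_distrib]
    apply Finset.sum_congr rfl
    intro a ha
    have h1 := key _ (hs a ha false) _ (hs a ha true)
    have h2 : l (bt (a false) (a true)) + l (bt (a true) (a false)) =
        l (bt (a false) (a false)) + l (bt (a true) (a true)) := by linarith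
    rw [h2]
    ring
  rw [e3, ← e2 false, ← e2 true, diaq_ratEq (hz.2 false), diaq_ratEq (hz.2 true), map_zero,
    add_zero]

end Pool.Agent.R22
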