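import Pool.Agent.R22.Points
import Pool.Agent.R22.NQ

/-!
# The rational points of a curve of genus two: zero-cycles
-/

set_option autoImplicit false
set_option linter.constructorNameAsVariable false

noncomputable section

namespace Pool.Agent.R22

open Pool.Agent.ZCyc Pool.Agent.Dess Pool.Agent.Dess4 Pool.Agent.FPZ Polynomial IntermediateField
  Module
open scoped Classical

variable {k F : Type} [Field k] [IsAlgClosed k] [CharZero k] [Field F] [Algebra k F]
variable {x y : F}

/-- the odd part of a relation -/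
theorem rel_odd (h : HypField (sextic k) x y) {P : ℕ → Bool → Place k F}
    (hP : ∀ n < 321, ∀ s : Bool, (P n s).At x (px k n) ∧ (P n s).At y ((sg s : k) * py k n))
    {R : Rel} (hR : R ∈ rels) :
    unq (R.js.map fun p => sg p.2 • (Finsupp.single (P p.1 true) (1 : ℤ) -
      Finsupp.single (P p.1 false) 1)).sum ∈ RatEq (k := k) fun _ : Unit => F := by
  obtain ⟨h6, -, -, hnd, hlt⟩ := rel_form hR
  obtain ⟨v, hv⟩ : ∃ v : Fin (2 * 3) → ℕ × Bool, R.js = List.ofFn v := by
    refine ⟨fun i => R.js[(i : ℕ)]'(by rw [h6]; exact i.2), ?_⟩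
    apply List.ext_getElem
    · rw [List.length_ofFn, h6]
    · intro i h1 h2
      rw [List.getElem_ofFn]
  have hmem : ∀ i, v i ∈ R.js := fun i => by
    rw [hv]
    exact List.mem_ofFn.2 ⟨i, rfl⟩
  have hinj : Function.Injective fun i => (v i).1 := by
    rw [hv, List.map_ofFn, List.nodup_ofFn] at hnd
    exact hnd
  have h0 : (0 : ℕ) < 321 := by norm_num
  have hsg : ∀ s : Bool, (sg s : k) ≠ 0 := by
    intro s
    cases s <;> simp [sg]
  have hnot : ∀ s : Bool, (sg (!s) : k) = -(sg s : k) := by
    intro s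
    cases s <;> simp [sg]
  have hQ := hP 0 h0 true
  have hQ' := hP 0 h0 false
  have hpe : ∀ i, eval (px k (v i).1) (rp k R) = (sg (v i).2 : k) * py k (v i).1 :=
    fun i => rp_eval hR (hmem i)
  have key := graph_mem h (y_notMem h) (p := rp k R) (N := 3)
    (by rw [sextic_degree]) (rp_degree R) (rp_lead hR) (c := fun i => px k (v i).1)
    (fun i j hij => hinj (px_inj (hlt _ (hmem i)) (hlt _ (hmem j)) hij))
    (P := fun i => P (v i).1 (v i).2)
    (fun i => (hP _ (hlt _ (hmem i)) _).1)
    (fun i => by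
      simp only [hpe]
      exact (hP _ (hlt _ (hmem i)) _).2)
    (fun i => by
      simp only [hpe]
      exact mul_ne_zero (hsg _) (py_ne (hlt _ (hmem i))))
    (d := px k 0) (e := py k 0) (py_ne h0) (Q := P 0 true) (Q' := P 0 false)
    hQ.1 (by simpa [sg] using hQ.2) hQ'.1 (by simpa [sg] using hQ'.2)
  have key' := graph_mem h (y_notMem h) (p := -rp k R) (N := 3)
    (by rw [sextic_degree]) (by rw [natDegree_neg]; exact rp_degree R)
    (by rw [coeff_neg, neg_sq]; exact rp_lead hR) (c := fun i => px k (v i).1)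
    (fun i j hij => hinj (px_inj (hlt _ (hmem i)) (hlt _ (hmem j)) hij))
    (P := fun i => P (v i).1 (!(v i).2))
    (fun i => (hP _ (hlt _ (hmem i)) _).1)
    (fun i => by
      simp only [eval_neg, hpe]
      rw [← neg_mul, ← hnot]
      exact (hP _ (hlt _ (hmem i)) _).2)
    (fun i => by
      simp only [eval_neg, hpe]
      exact neg_ne_zero.2 (mul_ne_zero (hsg _) (py_ne (hlt _ (hmem i)))))
    (d := px k 0) (e := py k 0) (py_ne h0) (Q := P 0 true) (Q' := P 0 false)
    hQ.1 (by simpa [sg] using hQ.2) hQ'.1 (by simpa [sg] using hQ'.2)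
  have h1 := sub_mem key key'
  rw [← map_sub] at h1
  convert h1 using 2
  rw [hv, List.map_ofFn, List.sum_ofFn, sub_sub_sub_cancel_right, ← Finset.sum_sub_distrib]
  apply Finset.sum_congr rfl
  intro i _
  rw [Function.comp_apply]
  cases (v i).2 <;> simp [sg]

/-- **The points of the record curve.** -/
theorem record (h : HypField (sextic k) x y) : ∃ P : ℕ → Bool → Place k F,
    (∀ n < 321, ∀ s : Bool, (P n s).At x (px k n) ∧ (P n s).At y ((sg s : k) * py k n)) ∧
    ((Finset.range 321 ×ˢ Finset.univ).image fun p : ℕ × Bool => P p.1 p.2).card = 642 ∧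
    (∀ n < 321, ∃ c : ℕ → ℤ, unq (Finsupp.single (P n true) 1 - Finsupp.single (P n false) 1 -
      ∑ i ∈ Finset.range 22, c i • (Finsupp.single (P i true) (1 : ℤ) -
        Finsupp.single (P i false) 1)) ∈ RatEq (k := k) fun _ : Unit => F) ∧
    ∀ z : (Bool → Place k F) →₀ ℤ, AlbKer (fun _ : Bool => F) z →
      (∀ a ∈ z.support, ∀ i, ∃ n < 321, ∃ s, a i = P n s) →
        RatTor (fun _ : Bool => F) (z + z.mapDomain swap) := by
  obtain ⟨P, hP⟩ := exists_places h
  refine ⟨P, hP, ?_, ?_, fun z hz hs => nq_albKer (noQuadric h hP) hz hs⟩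
  · rw [Finset.card_image_of_injOn]
    · simp
    · rintro ⟨m, s⟩ hm ⟨n, t⟩ hn hmn
      rw [Finset.mem_coe, Finset.mem_product, Finset.mem_range] at hm hn
      have hmn' : P m s = P n t := hmn
      have h1 := hP m hm.1 s
      have h2 := hP n hn.1 t
      rw [hmn'] at h1
      have h3 := px_inj hm.1 hn.1 (h1.1.unique h2.1)
      subst h3
      have h4 := h1.2.unique h2.2
      have h5 : (sg s : k) = sg t := mul_right_cancel₀ (py_ne hm.1) h4
      cases s <;> cases t
      · rfl
      · exfalso
        simp only [sg, cond_true, cond_false] at h5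
        norm_num at h5
      · exfalso
        simp only [sg, cond_true, cond_false] at h5
        norm_num at h5
      · rfl
  · intro n hn
    have hw : ∀ R ∈ rels, (R.js.map fun p => sg p.2 • (QuotientAddGroup.mk (unq
        (Finsupp.single (P p.1 true) (1 : ℤ) - Finsupp.single (P p.1 false) 1)) :
          ((Unit → Place k F) →₀ ℤ) ⧸ RatEq (k := k) fun _ : Unit => F)).sum = 0 := by
      intro R hR
      have h1 := rel_odd h hP hR
      rw [← QuotientAddGroup.eq_zero_iff] at h1
      rw [← h1]
      change _ = (QuotientAddGroup.mk' _) (unq _)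
      rw [← AddMonoidHom.comp_apply, map_list_sum, List.map_map]
      congr 1
      apply List.map_congr_left
      intro p _
      rw [Function.comp_apply, map_zsmul]
      rfl
    obtain ⟨c, hc⟩ := exists_coord_group (w := fun n => (QuotientAddGroup.mk (unq
        (Finsupp.single (P n true) (1 : ℤ) - Finsupp.single (P n false) 1)) :
          ((Unit → Place k F) →₀ ℤ) ⧸ RatEq (k := k) fun _ : Unit => F)) hw n hn
    refine ⟨c, ?_⟩
    rw [← QuotientAddGroup.eq_zero_iff, map_sub, QuotientAddGroup.mk_sub, hc, sub_eq_zero]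
    change _ = (QuotientAddGroup.mk' _) (unq _)
    rw [← AddMonoidHom.comp_apply, map_sum]
    apply Finset.sum_congr rfl
    intro i _
    rw [map_zsmul]
    rfl

end Pool.Agent.R22
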