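import Pool.Agent.FPZ.Hyp4

/-!
# Hyperelliptic curves with polynomials of any degree: points and orders
-/

set_option autoImplicit false

noncomputable section

namespace Pool.Agent.R22

open Pool.Agent.ZCyc Pool.Agent.Dess Pool.Agent.Dess4 Pool.Agent.FPZ Polynomial IntermediateField
  Module
open scoped Classical

variable {k F : Type} [Field k] [IsAlgClosed k] [CharZero k] [Field F] [Algebra k F]
variable {f : k[X]} {x y : F}

omit [IsAlgClosed k] [CharZero k] in
/-- `y` is not a rational function of `x` -/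
theorem notMem (h : HypField f x y) (hsep : f.Separable) (hdeg : 0 < f.natDegree) :
    y ∉ adjoin k {x} := by
  intro hy
  obtain ⟨r, hr⟩ := (RatFunc.algEquivOfTranscendental x h.transc).surjective ⟨y, hy⟩
  have hyr : y = aeval x r.num / aeval x r.denom := by
    have := RatFunc.algEquivOfTranscendental_apply x h.transc r
    rw [← this, hr]
  have hd0 : aeval x r.denom ≠ 0 := by
    intro h0
    exact r.denom_ne_zero ((transcendental_iff_injective.1 h.transc) (by rw [h0, map_zero]))
  have h1 : aeval x (r.num ^ 2) = aeval x (r.denom ^ 2 * f) := by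
    have h2 := h.eq
    rw [hyr, div_pow, div_eq_iff (pow_ne_zero 2 hd0)] at h2
    rw [map_pow, h2, map_mul, map_pow, mul_comm]
  have h2 : r.num ^ 2 = r.denom ^ 2 * f := (transcendental_iff_injective.1 h.transc) h1
  have hcop : IsCoprime r.num r.denom := r.isCoprime_num_denom
  have hu : IsUnit r.denom := by
    have h3 : r.denom ∣ r.num ^ 2 := ⟨r.denom * f, by rw [h2]; ring⟩
    exact hcop.symm.pow_right.isUnit_of_dvd' dvd_rfl h3
  have h4 : IsUnit r.num := by
    refine hsep.squarefree _ ?_
    have h3 : r.num * r.num ∣ r.denom ^ 2 * f := by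
      rw [← h2, sq]
    exact (hu.pow 2).dvd_mul_left.1 h3
  have h5 := congrArg natDegree h2
  rw [natDegree_eq_zero_of_isUnit (h4.pow 2), natDegree_mul (pow_ne_zero 2 r.denom_ne_zero)
    (by rintro rfl; simp at hdeg)] at h5
  omega

omit [IsAlgClosed k] [CharZero k] in
theorem finrank_two (h : HypField f x y) (hy : y ∉ adjoin k {x}) :
    finrank (adjoin k {x}) F = 2 := by
  have hroot : Polynomial.aeval y
      (X ^ 2 - C (⟨aeval x f, aeval_mem_adj f x⟩ : adjoin k {x})) = 0 := by
    rw [map_sub, map_pow, aeval_X, aeval_C, h.eq]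
    exact sub_self _
  have hint : IsIntegral (adjoin k {x}) y :=
    ⟨_, monic_X_pow_sub_C _ two_ne_zero, by rw [← aeval_def]; exact hroot⟩
  have h1 : (minpoly (adjoin k {x}) y).natDegree ≤ 2 := by
    have h2 := natDegree_le_of_dvd (minpoly.dvd _ _ hroot)
      (monic_X_pow_sub_C _ two_ne_zero).ne_zero
    rwa [natDegree_X_pow_sub_C] at h2
  have h2 : 2 ≤ (minpoly (adjoin k {x}) y).natDegree := by
    rw [minpoly.two_le_natDegree_iff hint]
    rintro ⟨z, hz⟩
    apply hy
    rw [← hz]
    exact z.2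
  have h3 := adjoin.finrank hint
  rw [h.top, finrank_top'] at h3
  omega

omit [IsAlgClosed k] in
/-- the hyperelliptic involution -/
theorem invol (h : HypField f x y) (hy : y ∉ adjoin k {x}) :
    ∃ σ : F ≃ₐ[k] F, σ x = x ∧ σ y = -y := by
  have hq : Algebra.IsQuadraticExtension (adjoin k {x}) F := ⟨finrank_two h hy⟩
  have hg : IsGalois (adjoin k {x}) F := inferInstance
  have h1 : ∃ σ : F ≃ₐ[adjoin k {x}] F, σ y ≠ y := by
    by_contra hcon
    push Not at hcon
    have h2 := (IsGalois.mem_bot_iff_fixed (F := adjoin k {x}) y).2 hcon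
    obtain ⟨z, hz⟩ := mem_bot.1 h2
    apply hy
    rw [← hz]
    exact z.2
  obtain ⟨σ, hσ⟩ := h1
  refine ⟨σ.restrictScalars k, σ.commutes ⟨x, mem_adjoin_simple_self k x⟩, ?_⟩
  have h2 : (σ y) ^ 2 = y ^ 2 := by
    rw [← map_pow, h.eq]
    exact σ.commutes ⟨aeval x f, aeval_mem_adj f x⟩
  exact (sq_eq_sq_iff_eq_or_eq_neg.1 h2).resolve_left hσ

/-- the zeros of a function which generates the field of rational functions -/
theorem zero_bound (h : HypField f x y) (hy : y ∉ adjoin k {x}) {z : F}
    (hz : adjoin k {z} = adjoin k {x}) (hzt : Transcendental k z) {n : Place k F → ℤ}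
    (hn : ∀ v, HasOrd v z (n v)) (S : Finset (Place k F)) : ∑ v ∈ S, (n v).toNat ≤ 2 := by
  have hz0 := transc_ne hzt
  obtain ⟨D, hD⟩ := exists_div h.curve hz0
  have e : ∀ v, n v = D v := fun v => hasOrd_unique h.curve hz0 (hn v) (hD v)
  have h1 := zeros_finrank h.curve hz0 hzt hD (S := S ∪ D.support) (fun v hv =>
    Finset.mem_union_right _ (Finsupp.mem_support_iff.2 hv.ne'))
  rw [hz, finrank_two h hy] at h1
  rw [← h1, Finset.sum_congr rfl fun v _ => by rw [e v]]
  exact Finset.sum_le_sum_of_subset Finset.subset_union_left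

omit [IsAlgClosed k] [CharZero k] in
/-- the coordinates of the conjugate point -/
theorem map_at {σ : F ≃ₐ[k] F} (hσx : σ x = x) (hσy : σ y = -y) {v : Place k F} {c b : k}
    (hx : v.At x c) (hyb : v.At y b) : (v.map σ).At x c ∧ (v.map σ).At y (-b) := by
  have hσ : ∀ z, σ.symm (σ z) = z := σ.symm_apply_apply
  constructor
  · rw [Place.at_map]
    have : σ.symm x = x := by
      conv_lhs => rw [← hσx]
      rw [hσ]
    rwa [this]
  · rw [Place.at_map]
    have : σ.symm y = -y := by
      have h1 : y = σ (-y) := by rw [map_neg, hσy, neg_neg]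
      conv_lhs => rw [h1]
      rw [hσ]
    rw [this]
    exact hyb.neg

omit [IsAlgClosed k] in
theorem at_ne {v w : Place k F} {b : k} (hb : b ≠ 0) (hv : v.At y b) (hw : w.At y (-b)) :
    v ≠ w := by
  rintro rfl
  have h2 := hv.unique hw
  have h3 : (2 : k) * b = 0 := by linear_combination h2
  exact hb ((mul_eq_zero.1 h3).resolve_left two_ne_zero)

/-- the order of `x - c` at a point with `y ≠ 0` -/
theorem ord_x (h : HypField f x y) (hy : y ∉ adjoin k {x}) {v : Place k F}
    {c b : k} (hv : v.At x c) (hvb : v.At y b) (hb0 : b ≠ 0) {m : ℤ}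
    (hm : HasOrd v (x - algebraMap k F c) m) : m = 1 := by
  have hne : x - algebraMap k F c ≠ 0 := transc_ne (transc_sub h.transc c)
  choose n hn using fun v => exists_hasOrd h.curve v hne
  have hb := zero_bound h hy (adjoin_sub x c) (transc_sub h.transc c) hn
  have hmn : m = n v := hasOrd_unique h.curve hne hm (hn v)
  have hpos : 0 < n v := ord_pos (hn v) hne hv
  obtain ⟨σ, hσx, hσy⟩ := invol h hy
  obtain ⟨hx', hy'⟩ := map_at hσx hσy hv hvb
  have hvv : v ≠ v.map σ := at_ne hb0 hvb hy'
  have hpos' : 0 < n (v.map σ) := ord_pos (hn _) hne hx'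
  have h5 := hb {v, v.map σ}
  rw [Finset.sum_pair hvv] at h5
  omega

/-- a point with `y ≠ 0` is determined by its coordinates -/
theorem place_eq (h : HypField f x y) (hy : y ∉ adjoin k {x}) {v w : Place k F} {c b : k}
    (hb0 : b ≠ 0) (hv : v.At x c) (hvb : v.At y b) (hw : w.At x c) (hwb : w.At y b) :
    v = w := by
  by_contra hvw
  have hne : x - algebraMap k F c ≠ 0 := transc_ne (transc_sub h.transc c)
  choose n hn using fun v => exists_hasOrd h.curve v hne
  have hb := zero_bound h hy (adjoin_sub x c) (transc_sub h.transc c) hn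
  have h1 := ord_x h hy hv hvb hb0 (hn v)
  have h2 := ord_x h hy hw hwb hb0 (hn w)
  obtain ⟨σ, hσx, hσy⟩ := invol h hy
  obtain ⟨hx', hy'⟩ := map_at hσx hσy hv hvb
  have h3 := ord_x h hy hx' hy' (neg_ne_zero.2 hb0) (hn _)
  have h5 := hb {v, w, v.map σ}
  rw [Finset.sum_insert, Finset.sum_pair (at_ne hb0 hwb hy'), h1, h2, h3] at h5
  · exact absurd h5 (by decide)
  · rw [Finset.mem_insert, Finset.mem_singleton, not_or]
    exact ⟨hvw, at_ne hb0 hvb hy'⟩

/-- there is a point with given coordinates -/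
theorem exists_point (h : HypField f x y) (hy : y ∉ adjoin k {x}) {c b : k}
    (hb : b ^ 2 = eval c f) : ∃ v : Place k F, v.At x c ∧ v.At y b := by
  obtain ⟨v, hv⟩ := exists_place h.transc c
  obtain ⟨b', hb', hb2⟩ := h.at_y hv
  rcases sq_eq_sq_iff_eq_or_eq_neg.1 (hb2.trans hb.symm) with rfl | rfl
  · exact ⟨v, hv, hb'⟩
  · obtain ⟨σ, hσx, hσy⟩ := invol h hy
    obtain ⟨h1, h2⟩ := map_at hσx hσy hv hb'
    rw [neg_neg] at h2
    exact ⟨_, h1, h2⟩

end Pool.Agent.R22
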