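import Mathlib

/-!
# Elementary symmetric functions and power sums
-/

set_option autoImplicit false

noncomputable section

namespace Pool.Agent.R22

open MvPolynomial
open scoped Classical

variable {B : Type*} [CommRing B] {N : ℕ}

/-- the power sums of the `t i` are `σ k + ℓ k`, and all products of the `ℓ k` are zero -/
def NCond (σ : ℕ → B) (t : Fin N → B) (ℓ : ℕ → B) : Prop :=
  (∀ k, 1 ≤ k → ∑ i, t i ^ k = σ k + ℓ k) ∧ ∀ i j, ℓ i * ℓ j = 0

/-- a function which is an affine combination of the `ℓ k` -/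
def IsAff (σ : ℕ → B) (g : (Fin N → B) → B) : Prop :=
  ∃ (α : B) (β : ℕ →₀ B), ∀ (t : Fin N → B) (ℓ : ℕ → B), NCond σ t ℓ →
    g t = α + β.sum fun k b => b * ℓ k

variable {σ : ℕ → B}

theorem isAff_const (c : B) : IsAff (N := N) σ fun _ => c :=
  ⟨c, 0, fun t ℓ _ => by simp⟩

theorem IsAff.add {g h : (Fin N → B) → B} (hg : IsAff σ g) (hh : IsAff σ h) :
    IsAff σ fun t => g t + h t := by
  obtain ⟨α, β, hg⟩ := hg
  obtain ⟨α', β', hh⟩ := hh
  refine ⟨α + α', β + β', fun t ℓ ht => ?_⟩
  rw [Finsupp.sum_add_index' (by simp) (by intros; ring)]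
  simp only [hg t ℓ ht, hh t ℓ ht]
  ring

theorem IsAff.sum {ι : Type*} {s : Finset ι} {g : ι → (Fin N → B) → B}
    (hg : ∀ i ∈ s, IsAff σ (g i)) : IsAff σ fun t => ∑ i ∈ s, g i t := by
  induction s using Finset.induction_on with
  | empty =>
    simp only [Finset.sum_empty]
    exact isAff_const 0
  | insert a s ha ih =>
    simp only [Finset.sum_insert ha]
    exact (hg a (Finset.mem_insert_self a s)).add
      (ih fun i hi => hg i (Finset.mem_insert_of_mem hi))

theorem IsAff.const_mul {g : (Fin N → B) → B} (hg : IsAff σ g) (c : B) :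
    IsAff σ fun t => c * g t := by
  obtain ⟨α, β, hg⟩ := hg
  refine ⟨c * α, β.mapRange (c * ·) (by simp), fun t ℓ ht => ?_⟩
  rw [Finsupp.sum_mapRange_index (by simp)]
  simp only [hg t ℓ ht, mul_add, Finsupp.mul_sum, mul_assoc]

theorem IsAff.mul_psum {g : (Fin N → B) → B} (hg : IsAff σ g) {k : ℕ} (hk : 1 ≤ k) :
    IsAff σ fun t => g t * ∑ i, t i ^ k := by
  obtain ⟨α, β, hg⟩ := hg
  refine ⟨σ k * α, Finsupp.single k α + β.mapRange (σ k * ·) (by simp), fun t ℓ ht => ?_⟩
  rw [Finsupp.sum_add_index' (by simp) (by intros; ring), Finsupp.sum_single_index (by simp),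
    Finsupp.sum_mapRange_index (by simp)]
  have h1 : (β.sum fun j b => b * ℓ j) * ℓ k = 0 := by
    rw [Finsupp.sum, Finset.sum_mul]
    apply Finset.sum_eq_zero
    intro j _
    rw [mul_assoc, ht.2, mul_zero]
  have h2 : (β.sum fun j b => σ k * b * ℓ j) = σ k * β.sum fun j b => b * ℓ j := by
    rw [Finsupp.mul_sum]
    simp only [mul_assoc]
  simp only [hg t ℓ ht, ht.1 k hk]
  rw [h2]
  linear_combination h1

/-- the elementary symmetric functions -/
theorem isAff_esymm (j : ℕ) :
    IsAff (N := N) σ fun t => (j.factorial : B) * aeval t (esymm (Fin N) ℤ j) := by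
  induction j using Nat.strong_induction_on with
  | _ j ih =>
  rcases j with _ | n
  · simp only [esymm_zero, map_one, mul_one]
    exact isAff_const _
  · have h1 := mul_esymm_eq_sum (Fin N) ℤ (n + 1)
    have h2 : ∀ t : Fin N → B, ((n + 1).factorial : B) * aeval t (esymm (Fin N) ℤ (n + 1)) =
        ∑ a ∈ Finset.HasAntidiagonal.antidiagonal (n + 1) with a.1 < n + 1,
          ((-1) ^ (n + 2) * (-1) ^ a.1 * ((n.factorial / a.1.factorial : ℕ) : B)) *
            (((a.1.factorial : B) * aeval t (esymm (Fin N) ℤ a.1)) * ∑ i, t i ^ a.2) := by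
      intro t
      have h3 := congrArg (aeval t) h1
      rw [map_mul, map_mul, map_sum, map_natCast] at h3
      rw [Nat.factorial_succ, Nat.cast_mul, mul_comm ((n + 1 : ℕ) : B) _, mul_assoc, h3,
        map_pow, map_neg, map_one, Finset.mul_sum, Finset.mul_sum]
      apply Finset.sum_congr rfl
      intro a ha
      rw [Finset.mem_filter] at ha
      have h4 : a.1.factorial ∣ n.factorial := Nat.factorial_dvd_factorial (by omega)
      obtain ⟨q, hq⟩ := h4
      rw [hq, Nat.mul_div_cancel_left _ (Nat.factorial_pos _), map_mul, map_mul, map_pow, map_neg,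
        map_one, psum, map_sum]
      simp only [map_pow, aeval_X]
      push_cast
      ring
    simp only [h2]
    refine IsAff.sum fun a ha => ?_
    rw [Finset.mem_filter, Finset.HasAntidiagonal.mem_antidiagonal] at ha
    exact ((ih a.1 ha.2).mul_psum (k := a.2) (by omega)).const_mul _

/-- the product -/
theorem isAff_prod : IsAff (N := N) σ fun t => (N.factorial : B) * ∏ i, t i := by
  have h1 := isAff_esymm (N := N) (σ := σ) N
  have h2 : ∀ t : Fin N → B, aeval t (esymm (Fin N) ℤ N) = ∏ i, t i := by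
    intro t
    have h3 : Finset.powersetCard N (Finset.univ : Finset (Fin N)) = {Finset.univ} := by
      have h4 := Finset.powersetCard_self (Finset.univ : Finset (Fin N))
      rwa [Finset.card_fin] at h4
    rw [esymm, h3, Finset.sum_singleton, map_prod]
    simp only [aeval_X]
  simpa only [h2] using h1

end Pool.Agent.R22
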