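import Mathlib

/-!
# The group ring modulo a subgroup which is stable under translations
-/

set_option autoImplicit false

noncomputable section

namespace Pool.Agent.R22

open scoped Classical

variable {P : Type} [AddCommGroup P]

/-- the elements with a multiple in the subgroup -/
def tIdeal (T : AddSubgroup (P →₀ ℤ)) (hT : ∀ (c : P) (z : P →₀ ℤ), z ∈ T →
    z.mapDomain (c + ·) ∈ T) : Ideal (AddMonoidAlgebra ℤ P) where
  carrier := {r | ∃ m : ℕ, 0 < m ∧ m • r.coeff ∈ T}
  add_mem' := by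
    rintro a b ⟨m, hm, ha⟩ ⟨n, hn, hb⟩
    refine ⟨m * n, Nat.mul_pos hm hn, ?_⟩
    rw [AddMonoidAlgebra.coeff_add, smul_add]
    refine add_mem ?_ ?_
    · rw [mul_comm, mul_smul]
      exact AddSubgroup.nsmul_mem _ ha _
    · rw [mul_smul]
      exact AddSubgroup.nsmul_mem _ hb _
  zero_mem' := ⟨1, one_pos, by simp⟩
  smul_mem' := by
    rintro u r ⟨m, hm, hr⟩
    refine ⟨m, hm, ?_⟩
    rw [smul_eq_mul]
    induction u using AddMonoidAlgebra.induction_linear with
    | zero => simp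
    | add u v hu hv =>
      rw [add_mul, AddMonoidAlgebra.coeff_add, smul_add]
      exact add_mem hu hv
    | single c a =>
      have h1 : ∀ s : AddMonoidAlgebra ℤ P, (AddMonoidAlgebra.single c a * s).coeff =
          a • s.coeff.mapDomain (c + ·) := by
        intro s
        induction s using AddMonoidAlgebra.induction_linear with
        | zero => simp
        | add s t hs ht =>
          rw [mul_add, AddMonoidAlgebra.coeff_add, AddMonoidAlgebra.coeff_add, hs, ht,
            Finsupp.mapDomain_add, smul_add]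
        | single d b =>
          rw [AddMonoidAlgebra.single_mul_single, AddMonoidAlgebra.coeff_single,
            AddMonoidAlgebra.coeff_single, Finsupp.mapDomain_single, Finsupp.smul_single,
            smul_eq_mul]
      rw [h1, smul_comm]
      apply AddSubgroup.zsmul_mem
      have h2 := hT c _ hr
      rwa [show (m • r.coeff).mapDomain (c + ·) = m • r.coeff.mapDomain (c + ·) from
        map_nsmul (Finsupp.mapDomain.addMonoidHom (c + ·)) m r.coeff] at h2

/-- the quotient ring -/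
def QRing (T : AddSubgroup (P →₀ ℤ)) (hT : ∀ (c : P) (z : P →₀ ℤ), z ∈ T →
    z.mapDomain (c + ·) ∈ T) : Type := AddMonoidAlgebra ℤ P ⧸ tIdeal T hT

instance (T : AddSubgroup (P →₀ ℤ)) (hT : ∀ (c : P) (z : P →₀ ℤ), z ∈ T →
    z.mapDomain (c + ·) ∈ T) : CommRing (QRing T hT) :=
  inferInstanceAs (CommRing (AddMonoidAlgebra ℤ P ⧸ tIdeal T hT))

variable {T : AddSubgroup (P →₀ ℤ)} {hT : ∀ (c : P) (z : P →₀ ℤ), z ∈ T →
    z.mapDomain (c + ·) ∈ T}

/-- the quotient map -/
def qmk (T : AddSubgroup (P →₀ ℤ)) (hT : ∀ (c : P) (z : P →₀ ℤ), z ∈ T →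
    z.mapDomain (c + ·) ∈ T) : AddMonoidAlgebra ℤ P →+* QRing T hT :=
  Ideal.Quotient.mk (tIdeal T hT)

theorem qmk_eq_zero {r : AddMonoidAlgebra ℤ P} :
    qmk T hT r = 0 ↔ ∃ m : ℕ, 0 < m ∧ m • r.coeff ∈ T := by
  change Ideal.Quotient.mk (tIdeal T hT) r = 0 ↔ _
  rw [Ideal.Quotient.eq_zero_iff_mem]
  rfl

/-- the class of a cycle in the ring -/
def ev (T : AddSubgroup (P →₀ ℤ)) (hT : ∀ (c : P) (z : P →₀ ℤ), z ∈ T →
    z.mapDomain (c + ·) ∈ T) : (P →₀ ℤ) →+ QRing T hT :=
  AddMonoidHom.mk' (fun z => qmk T hT (AddMonoidAlgebra.ofCoeff z)) fun a b => by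
    rw [AddMonoidAlgebra.ofCoeff_add, map_add]

theorem ev_apply (z : P →₀ ℤ) : ev T hT z = qmk T hT (AddMonoidAlgebra.ofCoeff z) := rfl

theorem ev_eq_zero {z : P →₀ ℤ} : ev T hT z = 0 ↔ ∃ m : ℕ, 0 < m ∧ m • z ∈ T := by
  rw [ev_apply, qmk_eq_zero]

/-- the ring is torsion free -/
theorem ev_tf {b : QRing T hT} {n : ℕ} (hn : 0 < n) (h : (n : QRing T hT) * b = 0) : b = 0 := by
  obtain ⟨r, rfl⟩ : ∃ r, qmk T hT r = b := Ideal.Quotient.mk_surjective b
  rw [← nsmul_eq_mul, ← map_nsmul, qmk_eq_zero] at h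
  obtain ⟨m, hm, h⟩ := h
  rw [qmk_eq_zero]
  refine ⟨m * n, Nat.mul_pos hm hn, ?_⟩
  rw [mul_smul]
  exact h

/-- the class of a point -/
def ept (T : AddSubgroup (P →₀ ℤ)) (hT : ∀ (c : P) (z : P →₀ ℤ), z ∈ T →
    z.mapDomain (c + ·) ∈ T) (c : P) : QRing T hT :=
  ev T hT (Finsupp.single c 1)

theorem ept_eq (c : P) : ept T hT c = qmk T hT (AddMonoidAlgebra.single c 1) := rfl

theorem ept_add (c d : P) : ept T hT (c + d) = ept T hT c * ept T hT d := by
  rw [ept_eq, ept_eq, ept_eq, ← map_mul, AddMonoidAlgebra.single_mul_single, mul_one]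

theorem ept_zero : ept T hT 0 = 1 := by
  rw [ept_eq, ← map_one (qmk T hT)]
  rfl

theorem ept_nsmul (c : P) (n : ℕ) : ept T hT (n • c) = ept T hT c ^ n := by
  induction n with
  | zero => rw [zero_smul, pow_zero, ept_zero]
  | succ n ih => rw [succ_nsmul, ept_add, ih, pow_succ]

theorem ept_sum {ι : Type*} (s : Finset ι) (c : ι → P) :
    ept T hT (∑ i ∈ s, c i) = ∏ i ∈ s, ept T hT (c i) := by
  induction s using Finset.induction_on with
  | empty => rw [Finset.sum_empty, Finset.prod_empty, ept_zero]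
  | insert a s ha ih => rw [Finset.sum_insert ha, Finset.prod_insert ha, ept_add, ih]

theorem ept_mul_neg (c : P) : ept T hT c * ept T hT (-c) = 1 := by
  rw [← ept_add, add_neg_cancel, ept_zero]

/-- the class of a cycle as a sum -/
theorem ev_sum (z : P →₀ ℤ) : ev T hT z = z.sum fun c n => n • ept T hT c := by
  induction z using Finsupp.induction_linear with
  | zero => rw [map_zero, Finsupp.sum_zero_index]
  | add a b ha hb =>
    rw [map_add, Finsupp.sum_add_index' (by simp) (by intros; rw [add_smul]), ha, hb]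
  | single c n =>
    rw [Finsupp.sum_single_index (by simp), ept, ← map_zsmul, Finsupp.smul_single, smul_eq_mul,
      mul_one]

end Pool.Agent.R22
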