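import Pool.Agent.R22.SymTwo
import Pool.Agent.R22.EffGen
import Pool.Agent.R22.Ring
import Pool.Agent.R22.Newton

/-!
# Zero-cycles on the Jacobian of a curve
-/

set_option autoImplicit false

noncomputable section

namespace Pool.Agent.R22

open Pool.Agent.ZCyc Pool.Agent.Dess Pool.Agent.Dess4 Pool.Agent.FPZ
open scoped Classical

variable {k F : Type} [Field k] [Field F] [Algebra k F]

/-- the group is stable under translations -/
theorem ratJac_translate (c : Pic k F) (z : Pic k F →₀ ℤ) (hz : z ∈ RatJac k F) :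
    z.mapDomain (c + ·) ∈ RatJac k F := by
  have hle : RatJac k F ≤ (RatJac k F).comap (Finsupp.mapDomain.addMonoidHom (c + ·)) := by
    rw [RatJac, AddSubgroup.closure_le]
    rintro _ ⟨ι, hι, d, w, hw, rfl⟩
    refine AddSubgroup.subset_closure ⟨ι, hι, d - c, w, hw, ?_⟩
    change (w.mapDomain _).mapDomain _ = _
    rw [← Finsupp.mapDomain_comp]
    congr 1
    funext a
    rw [Function.comp_apply]
    abel
  exact hle hz

/-- the image of a rational equivalence -/
theorem ratJac_mem {ι : Type} [Fintype ι] {w : (ι → Place k F) →₀ ℤ}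
    (hw : w ∈ RatEq fun _ : ι => F) :
    w.mapDomain (fun a => cls (∑ i, Finsupp.single (a i) 1)) ∈ RatJac k F := by
  have hle : RatEq (k := k) (fun _ : ι => F) ≤ (RatJac k F).comap
      (Finsupp.mapDomain.addMonoidHom fun a => cls (∑ i, Finsupp.single (a i) 1)) := by
    rw [RatEq, AddSubgroup.closure_le]
    intro w hw
    refine AddSubgroup.subset_closure ⟨ι, inferInstance, 0, w, hw, ?_⟩
    simp only [sub_zero]
    rfl
  exact hle hw

/-- the ring of zero-cycles -/
abbrev JRing (k F : Type) [Field k] [Field F] [Algebra k F] : Type :=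
  QRing (RatJac k F) ratJac_translate

/-- the classes of cycles on the Picard group -/
def evj (k F : Type) [Field k] [Field F] [Algebra k F] : (Pic k F →₀ ℤ) →+ JRing k F :=
  ev (RatJac k F) ratJac_translate

/-- the classes of points of the Picard group -/
def ej (c : Pic k F) : JRing k F := ept (RatJac k F) ratJac_translate c

theorem ej_add (c d : Pic k F) : ej (c + d) = ej c * ej d := ept_add c d

theorem ej_nsmul (c : Pic k F) (n : ℕ) : ej (n • c) = ej c ^ n := ept_nsmul c n

theorem ej_sum {ι : Type*} (s : Finset ι) (c : ι → Pic k F) :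
    ej (∑ i ∈ s, c i) = ∏ i ∈ s, ej (c i) := ept_sum s c

theorem ej_mul_neg (c : Pic k F) : ej c * ej (-c) = 1 := ept_mul_neg c

theorem evj_sum (z : Pic k F →₀ ℤ) : evj k F z = z.sum fun c n => n • ej c := ev_sum z

theorem evj_eq_zero {z : Pic k F →₀ ℤ} :
    evj k F z = 0 ↔ ∃ m : ℕ, 0 < m ∧ m • z ∈ RatJac k F := ev_eq_zero

/-- the class of a point of the curve in the Picard group -/
def pc (p : Place k F) : Pic k F := cls (Finsupp.single p 1)

/-- the class of a divisor as a homomorphism -/
theorem cls_add' (A B : Place k F →₀ ℤ) : cls (A + B) = cls A + cls B := by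
  rw [cls, map_add, QuotientAddGroup.mk_add]
  rfl

theorem cls_sum' {ι : Type*} (s : Finset ι) (p : ι → Place k F) :
    cls (∑ i ∈ s, Finsupp.single (p i) 1) = ∑ i ∈ s, pc (p i) := by
  induction s using Finset.induction_on with
  | empty =>
    rw [Finset.sum_empty, Finset.sum_empty, cls, map_zero]
    rfl
  | insert a s ha ih => rw [Finset.sum_insert ha, Finset.sum_insert ha, cls_add', ih]; rfl

theorem sum_const' {G : Type*} [AddCommGroup G] (n : ℕ) (x : G) :
    ∑ _i : Fin n, x = n • x := by simp

/-- the power sums -/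
def pw (j : ℕ) : (Place k F →₀ ℤ) →+ JRing k F :=
  (evj k F).comp (Finsupp.mapDomain.addMonoidHom fun p => j • pc p)

theorem pw_single (j : ℕ) (p : Place k F) (n : ℤ) :
    pw j (Finsupp.single p n) = n • ej (pc p) ^ j := by
  change evj k F ((Finsupp.single p n).mapDomain _) = _
  rw [Finsupp.mapDomain_single, evj_sum, Finsupp.sum_single_index (by simp), ej_nsmul]

/-- the power sums depend only on the class -/
theorem pw_ratEq (j : ℕ) {D : Place k F →₀ ℤ} (hD : unq D ∈ RatEq fun _ : Unit => F) :
    pw j D = 0 := by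
  have h1 := map_mem (L := fun _ : Unit => F) (L' := fun _ : Fin j => F)
    (fun a _ => a ()) (fun _ => Or.inr ⟨(), AlgHom.id k _, fun _ => rfl⟩) hD
  have h2 := ratJac_mem h1
  change evj k F (D.mapDomain fun p => j • pc p) = 0
  rw [evj_eq_zero]
  refine ⟨1, one_pos, ?_⟩
  rw [one_smul]
  convert h2 using 1
  change _ = ((D.mapDomain fun p _ => p).mapDomain _).mapDomain _
  rw [← Finsupp.mapDomain_comp, ← Finsupp.mapDomain_comp]
  congr 1
  funext p
  change j • pc p = cls (∑ _i : Fin j, Finsupp.single p 1)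
  rw [cls_sum', sum_const']

/-- products of power sums -/
theorem pw_mul (i j : ℕ) (A B : Place k F →₀ ℤ) :
    evj k F ((exq A B).mapDomain fun a => i • pc (a false) + j • pc (a true)) =
      pw i A * pw j B := by
  induction A using Finsupp.induction_linear with
  | zero => rw [map_zero, map_zero, AddMonoidHom.zero_apply, Finsupp.mapDomain_zero, map_zero,
      zero_mul]
  | add A A' hA hA' =>
    rw [map_add, AddMonoidHom.add_apply, Finsupp.mapDomain_add, map_add, hA, hA', map_add,
      add_mul]
  | single p m =>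
    induction B using Finsupp.induction_linear with
    | zero => rw [map_zero, map_zero, Finsupp.mapDomain_zero, map_zero, mul_zero]
    | add B B' hB hB' =>
      rw [map_add, Finsupp.mapDomain_add, map_add, hB, hB', map_add, mul_add]
    | single q n =>
      rw [exq_single, Finsupp.mapDomain_single, pw_single, pw_single, evj_sum,
        Finsupp.sum_single_index (by simp), ej_add, ej_nsmul, ej_nsmul]
      change (m * n) • (ej (pc p) ^ i * ej (pc q) ^ j) = _
      rw [smul_mul_smul_comm]

variable [IsAlgClosed k] [CharZero k]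

/-- products of power sums of divisors in the saturation -/
theorem pw_mul_self {S : Set (Place k F)} (hS : NoQuadric S) {D : Place k F →₀ ℤ}
    (hD : InSat S D) (i j : ℕ) : pw i D * pw j D = 0 := by
  obtain ⟨m, hm, h1⟩ := nq_sat hS hD hD
  rw [← two_smul ℕ, ← mul_smul] at h1
  have h2 := map_mem (L := fun _ : Bool => F) (L' := fun _ : Fin i ⊕ Fin j => F)
    (fun a => Sum.elim (fun _ => (a false : Place k F)) (fun _ => (a true : Place k F))) (by
      rintro (_ | _)
      · exact Or.inr ⟨false, AlgHom.id k _, fun _ => rfl⟩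
      · exact Or.inr ⟨true, AlgHom.id k _, fun _ => rfl⟩) h1
  have h3 := ratJac_mem h2
  rw [← pw_mul, evj_eq_zero]
  refine ⟨m * 2, by omega, ?_⟩
  convert h3 using 1
  have h4 : ∀ (Φ : (Bool → Place k F) → (Fin i ⊕ Fin j → Place k F))
      (Ψ : (Fin i ⊕ Fin j → Place k F) → Pic k F) (n : ℕ) (w : (Bool → Place k F) →₀ ℤ),
      ((n • w).mapDomain Φ).mapDomain Ψ = n • w.mapDomain (Ψ ∘ Φ) := by
    intro Φ Ψ n w
    rw [← Finsupp.mapDomain_comp]
    exact map_nsmul (Finsupp.mapDomain.addMonoidHom (Ψ ∘ Φ)) n w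
  rw [h4]
  congr 2
  funext a
  change _ = cls (∑ l, Finsupp.single (Sum.elim (fun _ : Fin i => a false)
    (fun _ : Fin j => a true) l) 1)
  rw [cls_sum', Fintype.sum_sum_type]
  simp only [Sum.elim_inl, Sum.elim_inr]
  rw [sum_const', sum_const']

omit [IsAlgClosed k] [CharZero k] in
theorem exists_unq (c : Pic k F) : ∃ D : Place k F →₀ ℤ, cls D = c := by
  obtain ⟨X, rfl⟩ := QuotientAddGroup.mk_surjective c
  refine ⟨X.mapDomain fun f => f (), ?_⟩
  have h1 : unq (X.mapDomain fun f => f ()) = X := by
    change (X.mapDomain fun f => f ()).mapDomain (fun p _ => p) = X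
    rw [← Finsupp.mapDomain_comp]
    have h2 : ((fun (p : Place k F) (_ : Unit) => p) ∘ fun f : Unit → Place k F => f ()) = id := by
      funext f
      rfl
    rw [h2, Finsupp.mapDomain_id]
  rw [cls, h1]

theorem pdeg_cls (D : Place k F →₀ ℤ) : pdeg (cls D) = (dgq D : ℚ) := by
  change degq (unq D) = _
  induction D using Finsupp.induction_linear with
  | zero => simp
  | add A B hA hB =>
    rw [map_add, map_add, map_add, hA, hB]
    push_cast
    rfl
  | single p n => rw [unq_single, degq_single, dgq_single]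

omit [IsAlgClosed k] [CharZero k] in
theorem cls_zsum {ι : Type*} (s : Finset ι) (n : ι → ℤ) (D : ι → Place k F →₀ ℤ) :
    cls (∑ i ∈ s, n i • D i) = ∑ i ∈ s, n i • cls (D i) := by
  change ((QuotientAddGroup.mk' _).comp unq) _ = _
  rw [map_sum]
  apply Finset.sum_congr rfl
  intro i _
  rw [map_zsmul]
  rfl

omit [IsAlgClosed k] [CharZero k] in
theorem pw_cls (j : ℕ) {A B : Place k F →₀ ℤ} (h : cls A = cls B) : pw j A = pw j B := by
  rw [← sub_eq_zero, ← map_sub]
  apply pw_ratEq
  rw [← sub_eq_zero, ← cls_sub', cls, QuotientAddGroup.eq_zero_iff] at h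
  exact h

/-- **Zero-cycles on the Jacobian.** -/
theorem torJac_of_sat (hF : IsCurve k F) {S : Set (Place k F)} (hS : NoQuadric S)
    {z : Pic k F →₀ ℤ} (hz : ∀ c ∈ z.support, ∃ m : ℕ, 0 < m ∧ m • c ∈ Gen S)
    (h0 : (z.sum fun _ n => n) = 0) (h1 : (z.sum fun c n => n • c) = 0) : TorJac z := by
  obtain ⟨t, ht, -⟩ := id hF
  obtain ⟨o, -⟩ := exists_place ht (0 : k)
  choose D hD using fun c : Pic k F => exists_unq c
  have hdeg : ∀ c ∈ z.support, dgq (D c) = 0 := by
    intro c hc
    obtain ⟨m, hm, hmc⟩ := hz c hc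
    have h3 := pdeg_gen hmc
    rw [map_nsmul, nsmul_eq_mul] at h3
    have h4 := (mul_eq_zero.1 h3).resolve_left (Nat.cast_ne_zero.2 hm.ne')
    rw [← hD c, pdeg_cls] at h4
    exact_mod_cast h4
  have hex : ∀ c : Pic k F, ∃ N₀ : ℕ, c ∈ z.support → ∀ N ≥ N₀, ∃ P : Fin N → Place k F,
      unq (D c + Finsupp.single o (N : ℤ) - ∑ i, Finsupp.single (P i) 1) ∈
        RatEq (k := k) fun _ : Unit => F := by
    intro c
    by_cases hc : c ∈ z.support
    · obtain ⟨N₀, h⟩ := exists_eff hF o (hdeg c hc)
      exact ⟨N₀, fun _ => h⟩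
    · exact ⟨0, fun h => absurd h hc⟩
  choose N₀ hN₀ using hex
  set N := z.support.sup N₀ with hN
  have hex' : ∀ c : Pic k F, ∃ P : Fin N → Place k F, c ∈ z.support →
      cls (D c + Finsupp.single o (N : ℤ)) = cls (∑ i, Finsupp.single (P i) 1) := by
    intro c
    by_cases hc : c ∈ z.support
    · obtain ⟨P, hP⟩ := hN₀ c hc N (Finset.le_sup (f := N₀) hc)
      refine ⟨P, fun _ => ?_⟩
      rw [← sub_eq_zero, ← cls_sub', cls, QuotientAddGroup.eq_zero_iff]
      exact hP
    · exact ⟨fun _ => o, fun h => absurd h hc⟩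
  choose P hP using hex'
  obtain ⟨α, β, haff⟩ := isAff_prod (N := N)
    (σ := fun j => pw j (Finsupp.single o (N : ℤ) : Place k F →₀ ℤ))
  have hcond : ∀ c ∈ z.support, NCond
      (fun j => pw j (Finsupp.single o (N : ℤ) : Place k F →₀ ℤ))
      (fun i => ej (pc (P c i))) (fun j => pw j (D c)) := by
    intro c hc
    constructor
    · intro j _
      have h2 : ∑ i, ej (pc (P c i)) ^ j = pw j (∑ i, Finsupp.single (P c i) 1) := by
        rw [map_sum]
        apply Finset.sum_congr rfl
        intro i _
        rw [pw_single, one_smul]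
      rw [h2, ← pw_cls j (hP c hc), map_add, add_comm]
    · intro i j
      obtain ⟨m, hm, hmc⟩ := hz c hc
      exact pw_mul_self hS ⟨m, hm, by rwa [hD]⟩ i j
  have hprod : ∀ c ∈ z.support, ∏ i, ej (pc (P c i)) =
      ej (cls (Finsupp.single o (N : ℤ))) * ej c := by
    intro c hc
    rw [← ej_sum, ← cls_sum', ← hP c hc, cls_add', hD, ej_add, mul_comm]
  have key : (N.factorial : JRing k F) *
        (ej (cls (Finsupp.single o (N : ℤ))) * evj k F z) = 0 := by
    rw [evj_sum, Finsupp.sum, Finset.mul_sum, Finset.mul_sum]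
    have h2 : ∀ c ∈ z.support, (N.factorial : JRing k F) *
          (ej (cls (Finsupp.single o (N : ℤ))) * z c • ej c) =
            z c • α + β.sum fun j b => b * (z c • pw j (D c)) := by
      intro c hc
      have h3 := haff _ _ (hcond c hc)
      simp only [hprod c hc] at h3
      rw [mul_smul_comm, mul_smul_comm, h3, smul_add]
      congr 1
      rw [Finsupp.smul_sum]
      simp only [mul_smul_comm]
    rw [Finset.sum_congr rfl h2, Finset.sum_add_distrib, ← Finset.sum_smul]
    rw [Finsupp.sum] at h0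
    rw [h0, zero_smul, zero_add]
    have h3 : ∀ j, ∑ c ∈ z.support, z c • pw j (D c) = 0 := by
      intro j
      have h4 : pw j (∑ c ∈ z.support, z c • D c) = 0 := by
        have h5 : cls (∑ c ∈ z.support, z c • D c) = cls (0 : Place k F →₀ ℤ) := by
          rw [cls_zsum]
          simp only [hD]
          rw [Finsupp.sum] at h1
          rw [h1, cls, map_zero]
          rfl
        rw [pw_cls j h5, map_zero]
      rw [← h4, map_sum]
      apply Finset.sum_congr rfl
      intro c _
      rw [map_zsmul]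
    simp only [Finsupp.sum]
    rw [Finset.sum_comm]
    apply Finset.sum_eq_zero
    intro j _
    rw [← Finset.mul_sum, h3, mul_zero]
  have h2 := ev_tf (Nat.factorial_pos N) key
  have h3 : evj k F z = 0 := by
    have h4 := congrArg (ej (-cls (Finsupp.single o (N : ℤ))) * ·) h2
    simp only [mul_zero] at h4
    rw [← mul_assoc, mul_comm (ej _) (ej _), ej_mul_neg, one_mul] at h4
    exact h4
  exact evj_eq_zero.1 h3

/-- **Zero-cycles on the Jacobian.** -/
theorem torJac (hF : IsCurve k F) {S : Set (Place k F)} (hS : NoQuadric S) {z : Pic k F →₀ ℤ}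
    (hz : (z.support : Set (Pic k F)) ⊆ Sat S) (h : Null z) : TorJac z :=
  torJac_of_sat hF hS (fun _ hc => hz hc) h.1 h.2

end Pool.Agent.R22
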