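import Pool.Agent.R22.Hyp

/-!
# Curves of genus two: six points on a cubic
-/

set_option autoImplicit false

noncomputable section

namespace Pool.Agent.R22

open Pool.Agent.ZCyc Pool.Agent.Dess Pool.Agent.Dess4 Pool.Agent.FPZ Polynomial IntermediateField
  Module
open scoped Classical

variable {k F : Type} [Field k] [IsAlgClosed k] [CharZero k] [Field F] [Algebra k F]
variable {f : k[X]} {x y : F}

omit [IsAlgClosed k] [CharZero k] in
/-- the value at infinity -/
theorem at_inf (hx0 : x ≠ 0) {v : Place k F} (hv : x ∉ v.ring) {p : k[X]} {N : ℕ}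
    (hp : p.natDegree ≤ N) : v.At (aeval x p / x ^ N) (p.coeff N) := by
  have hinv : v.At x⁻¹ (0 : k) := by
    rw [Place.at_zero_iff, v.vanishes_iff_or, inv_inv]
    exact Or.inr hv
  have h1 := hinv.aeval (reflect N p)
  have h2 : eval 0 (reflect N p) = p.coeff N := by
    rw [← coeff_zero_eq_eval_zero, coeff_reflect, revAt_le (Nat.zero_le N), Nat.sub_zero]
  rw [h2] at h1
  have h3 : aeval x⁻¹ (reflect N p) * x ^ N = aeval x p := by
    let _ : Invertible x := invertibleOfNonzero hx0
    have := eval₂_reflect_mul_pow (algebraMap k F) x N p hp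
    rw [invOf_eq_inv] at this
    exact this
  rw [← h3, mul_div_assoc, div_self (pow_ne_zero N hx0), mul_one]
  exact h1

/-- the divisor of `x - c` at the poles of `x` -/
theorem ord_inf_sub (h : HypField f x y) {v : Place k F} (hv : x ∉ v.ring) (c : k) :
    HasOrd v ((x - algebraMap k F c) / x) 0 := by
  have hx0 := transc_ne h.transc
  have h1 := at_inf hx0 hv (p := X - C c) (N := 1) (natDegree_X_sub_C_le c)
  rw [map_sub, aeval_X, aeval_C, pow_one, coeff_sub, coeff_X_one, coeff_C_of_ne_zero one_ne_zero,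
    sub_zero] at h1
  exact ord_at h.curve h1 one_ne_zero

/-- the order of `y - p(x)` at the poles of `x` -/
theorem ord_inf_y (h : HypField f x y) {v : Place k F} (hv : x ∉ v.ring) {p : k[X]} {N : ℕ}
    (hf : f.natDegree ≤ 2 * N) (hp : p.natDegree ≤ N) (hl : f.coeff (2 * N) ≠ p.coeff N ^ 2) :
    HasOrd v ((y - aeval x p) / x ^ N) 0 := by
  have hx0 := transc_ne h.transc
  have h1 := at_inf hx0 hv hp
  have h2 := at_inf hx0 hv hf
  have h3 : v.At ((y / x ^ N) ^ 2) (f.coeff (2 * N)) := by
    rw [div_pow, h.eq, ← pow_mul, mul_comm N 2]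
    exact h2
  have h4 : y / x ^ N ∈ v.ring := mem_of_pow two_pos h3.mem
  obtain ⟨e, he⟩ := exists_at h.curve v h4
  have h5 : e ^ 2 = f.coeff (2 * N) := (he.pow 2).unique h3
  have h6 := he.sub h1
  rw [← sub_div] at h6
  refine ord_at h.curve h6 ?_
  intro h7
  apply hl
  rw [← h5, sub_eq_zero.1 h7]

/-- the divisor of `x - c`, apart from the poles -/
theorem ord_fin_sub (h : HypField f x y) (hy : y ∉ adjoin k {x}) {c b : k} (hb : b ≠ 0)
    {P P' : Place k F} (hP : P.At x c) (hPb : P.At y b) (hP' : P'.At x c) (hPb' : P'.At y (-b))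
    {v : Place k F} (hv : x ∈ v.ring) {m : ℤ} (hm : HasOrd v (x - algebraMap k F c) m) :
    m = (Finsupp.single P 1 + Finsupp.single P' 1 : Place k F →₀ ℤ) v := by
  have hne : x - algebraMap k F c ≠ 0 := transc_ne (transc_sub h.transc c)
  obtain ⟨e, he⟩ := exists_at h.curve v hv
  by_cases hec : e = c
  · subst hec
    obtain ⟨b', hb', hb2⟩ := h.at_y he
    have hbf : b ^ 2 = eval e f := (hPb.pow 2).unique (by
      rw [h.eq]
      exact hP.aeval f)
    rcases sq_eq_sq_iff_eq_or_eq_neg.1 (hb2.trans hbf.symm) with h1 | h1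
    · rw [h1] at hb'
      have h2 : v = P := place_eq h hy hb he hb' hP hPb
      have h3 : P ≠ P' := at_ne hb hPb hPb'
      subst h2
      rw [Finsupp.add_apply, Finsupp.single_eq_same, Finsupp.single_eq_of_ne h3, add_zero]
      exact ord_x h hy he hb' hb hm
    · rw [h1] at hb'
      have h2 : v = P' := place_eq h hy (neg_ne_zero.2 hb) he hb' hP' hPb'
      have h3 : P ≠ P' := at_ne hb hPb hPb'
      subst h2
      rw [Finsupp.add_apply, Finsupp.single_eq_same, Finsupp.single_eq_of_ne h3.symm, zero_add]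
      exact ord_x h hy he hb' (neg_ne_zero.2 hb) hm
  · have h1 : HasOrd v (x - algebraMap k F c) 0 :=
      ord_at h.curve (he.sub (Place.at_const c)) (sub_ne_zero.2 hec)
    have h2 : v ≠ P := by
      rintro rfl
      exact hec (he.unique hP)
    have h3 : v ≠ P' := by
      rintro rfl
      exact hec (he.unique hP')
    rw [Finsupp.add_apply, Finsupp.single_eq_of_ne h2, Finsupp.single_eq_of_ne h3]
    exact hasOrd_unique h.curve hne hm h1

/-- **Conjugate points**: `P + P'` and `Q + Q'` are linearly equivalent. -/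
theorem conj_mem (h : HypField f x y) (hy : y ∉ adjoin k {x}) {c b d e : k} (hb : b ≠ 0)
    (he : e ≠ 0) {P P' Q Q' : Place k F} (hP : P.At x c) (hPb : P.At y b) (hP' : P'.At x c)
    (hPb' : P'.At y (-b)) (hQ : Q.At x d) (hQb : Q.At y e) (hQ' : Q'.At x d)
    (hQb' : Q'.At y (-e)) :
    unq (Finsupp.single P 1 + Finsupp.single P' 1 - (Finsupp.single Q 1 + Finsupp.single Q' 1)) ∈
      RatEq (k := k) fun _ : Unit => F := by
  have hne : ∀ c : k, x - algebraMap k F c ≠ 0 := fun c => transc_ne (transc_sub h.transc c)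
  obtain ⟨D, hD⟩ := exists_div h.curve (hne c)
  obtain ⟨E, hE⟩ := exists_div h.curve (hne d)
  have h1 : Finsupp.single P 1 + Finsupp.single P' 1 -
      (Finsupp.single Q 1 + Finsupp.single Q' 1) = D - E := by
    ext v
    by_cases hv : x ∈ v.ring
    · rw [Finsupp.sub_apply, Finsupp.sub_apply,
        ord_fin_sub h hy hb hP hPb hP' hPb' hv (hD v),
        ord_fin_sub h hy he hQ hQb hQ' hQb' hv (hE v)]
    · have h2 : ∀ R : Place k F, ∀ a : k, R.At x a → (Finsupp.single R 1 : Place k F →₀ ℤ) v = 0 := by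
        intro R a hR
        apply Finsupp.single_eq_of_ne
        rintro rfl
        exact hv hR.mem
      have hx0 := transc_ne h.transc
      obtain ⟨m, hm⟩ := exists_hasOrd h.curve v hx0
      have h3 : ∀ c : k, HasOrd v (x - algebraMap k F c) m := by
        intro c
        have h4 := ord_mul (ord_inf_sub h hv c) hm
        rwa [div_mul_cancel₀ _ hx0, zero_add] at h4
      rw [Finsupp.sub_apply, Finsupp.sub_apply, Finsupp.add_apply, Finsupp.add_apply,
        h2 P c hP, h2 P' c hP', h2 Q d hQ, h2 Q' d hQ',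
        hasOrd_unique h.curve (hne c) (hD v) (h3 c), hasOrd_unique h.curve (hne d) (hE v) (h3 d)]
      ring
  rw [h1, map_sub]
  exact sub_mem (unq_div_mem h.curve (hne c) hD) (unq_div_mem h.curve (hne d) hE)

omit [IsAlgClosed k] [CharZero k] in
/-- the polynomial `f - p²` -/
theorem sub_sq_eq {p : k[X]} {N : ℕ} (hf : f.natDegree ≤ 2 * N) (hp : p.natDegree ≤ N)
    (hl : f.coeff (2 * N) ≠ p.coeff N ^ 2) {c : Fin (2 * N) → k} (hc : Function.Injective c)
    (h : ∀ i, eval (c i) p ^ 2 = eval (c i) f) :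
    f - p ^ 2 = C (f.coeff (2 * N) - p.coeff N ^ 2) * ∏ i, (X - C (c i)) := by
  have h1 : (f - p ^ 2).natDegree ≤ 2 * N := by
    refine (natDegree_sub_le _ _).trans (max_le hf ?_)
    exact (natDegree_pow_le).trans (by omega)
  have h2 : (f - p ^ 2).coeff (2 * N) = f.coeff (2 * N) - p.coeff N ^ 2 := by
    rw [coeff_sub, ← coeff_pow_of_natDegree_le hp]
  have h3 : (f - p ^ 2).coeff (2 * N) ≠ 0 := by
    rw [h2]
    exact sub_ne_zero.2 hl
  have h4 : (f - p ^ 2).natDegree = 2 * N := le_antisymm h1 (le_natDegree_of_ne_zero h3)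
  have h5 : (∏ i, (X - C (c i))) ∣ f - p ^ 2 := by
    apply Finset.prod_dvd_of_coprime
    · intro i _ j _ hij
      exact pairwise_coprime_X_sub_C hc hij
    · intro i _
      rw [dvd_iff_isRoot, IsRoot, eval_sub, eval_pow, h i, sub_self]
  have hmon : (∏ i, (X - C (c i))).Monic := monic_prod_of_monic _ _ fun i _ => monic_X_sub_C _
  have hdeg : (∏ i, (X - C (c i))).natDegree = 2 * N := by
    rw [natDegree_prod_of_monic _ _ fun i _ => monic_X_sub_C _]
    simp
  obtain ⟨g, hg⟩ := h5
  have hg0 : g ≠ 0 := by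
    rintro rfl
    rw [mul_zero] at hg
    rw [hg, coeff_zero] at h3
    exact h3 rfl
  have h6 : g.natDegree = 0 := by
    have := congrArg natDegree hg
    rw [hmon.natDegree_mul' hg0, hdeg, h4] at this
    omega
  rw [natDegree_eq_zero] at h6
  obtain ⟨a, rfl⟩ := h6
  have h7 := congrArg (fun q => coeff q (2 * N)) hg
  simp only [h2, coeff_mul_C] at h7
  have h8 : (∏ i, (X - C (c i))).coeff (2 * N) = 1 := by
    have h9 := hmon.coeff_natDegree
    rwa [hdeg] at h9
  rw [h8, one_mul] at h7
  rw [hg, h7, mul_comm]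

/-- the order of `y - p(x)` at the points where `x` is finite -/
theorem ord_fin_y (h : HypField f x y) (hy : y ∉ adjoin k {x}) {p : k[X]} {N : ℕ}
    (hf : f.natDegree ≤ 2 * N) (hp : p.natDegree ≤ N) (hl : f.coeff (2 * N) ≠ p.coeff N ^ 2)
    {c : Fin (2 * N) → k} (hc : Function.Injective c) {P : Fin (2 * N) → Place k F}
    (hP : ∀ i, (P i).At x (c i)) (hPy : ∀ i, (P i).At y (eval (c i) p))
    (h0 : ∀ i, eval (c i) p ≠ 0) {v : Place k F} (hv : x ∈ v.ring) {m : ℤ}
    (hm : HasOrd v (y - aeval x p) m) :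
    m = (∑ i, Finsupp.single (P i) 1 : Place k F →₀ ℤ) v := by
  have hfe : ∀ i, eval (c i) p ^ 2 = eval (c i) f := fun i => ((hPy i).pow 2).unique (by
    rw [h.eq]
    exact (hP i).aeval f)
  have hsub := sub_sq_eq hf hp hl hc hfe
  have hne : y - aeval x p ≠ 0 := by
    intro h1
    apply hy
    rw [sub_eq_zero.1 h1]
    exact aeval_mem_adj p x
  obtain ⟨e, he⟩ := exists_at h.curve v hv
  obtain ⟨b, hb, hb2⟩ := h.at_y he
  by_cases hbp : b = eval e p
  · have h1 : eval e (f - p ^ 2) = 0 := by
      rw [eval_sub, eval_pow, ← hbp, hb2, sub_self]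
    rw [hsub, eval_mul, eval_C, eval_prod] at h1
    have h2 : ∃ i, e = c i := by
      rcases mul_eq_zero.1 h1 with h2 | h2
      · exact absurd h2 (sub_ne_zero.2 hl)
      · obtain ⟨i, _, hi⟩ := Finset.prod_eq_zero_iff.1 h2
        rw [eval_sub, eval_X, eval_C, sub_eq_zero] at hi
        exact ⟨i, hi⟩
    obtain ⟨i, rfl⟩ := h2
    have h3 : v = P i := place_eq h hy (h0 i) he (hbp ▸ hb) (hP i) (hPy i)
    subst h3
    have h4 : (∑ j, Finsupp.single (P j) 1 : Place k F →₀ ℤ) (P i) = 1 := by
      rw [Finsupp.finsetSum_apply, Finset.sum_eq_single i]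
      · exact Finsupp.single_eq_same
      · intro j _ hji
        apply Finsupp.single_eq_of_ne
        intro h5
        apply hji
        apply hc
        have h6 := hP j
        rw [← h5] at h6
        exact h6.unique (hP i)
      · intro h5
        exact absurd (Finset.mem_univ i) h5
    rw [h4]
    -- `(y - p) (y + p) = κ ∏ (x - c_j)`
    have h5 : (y - aeval x p) * (y + aeval x p) =
        algebraMap k F (f.coeff (2 * N) - p.coeff N ^ 2) *
          ((∏ j ∈ Finset.univ.erase i, (x - algebraMap k F (c j))) *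
            (x - algebraMap k F (c i))) := by
      have h6 := congrArg (aeval x) hsub
      rw [map_sub, map_pow, ← h.eq, map_mul, aeval_C, map_prod] at h6
      rw [Finset.prod_erase_mul _ _ (Finset.mem_univ i)]
      simp only [map_sub, aeval_X, aeval_C] at h6
      rw [map_sub, ← h6]
      ring
    have h6 : HasOrd (P i) (y + aeval x p) 0 := by
      refine ord_at h.curve (hb.add (he.aeval p)) ?_
      rw [hbp, ← two_mul]
      exact mul_ne_zero two_ne_zero (h0 i)
    have h7 : HasOrd (P i) (algebraMap k F (f.coeff (2 * N) - p.coeff N ^ 2)) 0 :=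
      ord_at h.curve (Place.at_const _) (sub_ne_zero.2 hl)
    have h8 : HasOrd (P i) (∏ j ∈ Finset.univ.erase i, (x - algebraMap k F (c j))) 0 := by
      refine ord_at h.curve (Place.At.prod fun j _ => he.sub (Place.at_const (c j))) ?_
      rw [Finset.prod_ne_zero_iff]
      intro j hj
      exact sub_ne_zero.2 fun h9 => (Finset.ne_of_mem_erase hj) (hc h9).symm
    obtain ⟨n, hn⟩ := exists_hasOrd h.curve (P i)
      (transc_ne (transc_sub h.transc (c i)) : x - algebraMap k F (c i) ≠ 0)
    have h9 := ord_x h hy he (hbp ▸ hb) (h0 i) hn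
    have h10 := ord_mul h7 (ord_mul h8 hn)
    have h11 := ord_mul hm h6
    rw [h5] at h11
    have h12 : algebraMap k F (f.coeff (2 * N) - p.coeff N ^ 2) *
          ((∏ j ∈ Finset.univ.erase i, (x - algebraMap k F (c j))) *
            (x - algebraMap k F (c i))) ≠ 0 := by
      refine mul_ne_zero ?_ (mul_ne_zero ?_ (transc_ne (transc_sub h.transc (c i))))
      · exact (map_ne_zero (algebraMap k F)).2 (sub_ne_zero.2 hl)
      · rw [Finset.prod_ne_zero_iff]
        intro j _
        exact transc_ne (transc_sub h.transc (c j))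
    have h13 := hasOrd_unique h.curve h12 h10 h11
    omega
  · have h1 : HasOrd v (y - aeval x p) 0 :=
      ord_at h.curve (hb.sub (he.aeval p)) (sub_ne_zero.2 hbp)
    have h2 : (∑ j, Finsupp.single (P j) 1 : Place k F →₀ ℤ) v = 0 := by
      rw [Finsupp.finsetSum_apply]
      apply Finset.sum_eq_zero
      intro j _
      apply Finsupp.single_eq_of_ne
      rintro rfl
      apply hbp
      have h3 : e = c j := he.unique (hP j)
      rw [h3]
      exact hb.unique (hPy j)
    rw [h2]
    exact hasOrd_unique h.curve hne hm h1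

/-- **Points on the graph of a polynomial.** -/
theorem graph_mem (h : HypField f x y) (hy : y ∉ adjoin k {x}) {p : k[X]} {N : ℕ}
    (hf : f.natDegree ≤ 2 * N) (hp : p.natDegree ≤ N) (hl : f.coeff (2 * N) ≠ p.coeff N ^ 2)
    {c : Fin (2 * N) → k} (hc : Function.Injective c) {P : Fin (2 * N) → Place k F}
    (hP : ∀ i, (P i).At x (c i)) (hPy : ∀ i, (P i).At y (eval (c i) p))
    (h0 : ∀ i, eval (c i) p ≠ 0) {d e : k} (he : e ≠ 0) {Q Q' : Place k F} (hQ : Q.At x d)
    (hQb : Q.At y e) (hQ' : Q'.At x d) (hQb' : Q'.At y (-e)) :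
    unq (∑ i, Finsupp.single (P i) 1 - N • (Finsupp.single Q 1 + Finsupp.single Q' 1)) ∈
      RatEq (k := k) fun _ : Unit => F := by
  have hne : ∀ c : k, x - algebraMap k F c ≠ 0 := fun c => transc_ne (transc_sub h.transc c)
  have hne' : y - aeval x p ≠ 0 := by
    intro h1
    apply hy
    rw [sub_eq_zero.1 h1]
    exact aeval_mem_adj p x
  obtain ⟨D, hD⟩ := exists_div h.curve hne'
  obtain ⟨E, hE⟩ := exists_div h.curve (hne d)
  have h1 : ∑ i, Finsupp.single (P i) 1 - N • (Finsupp.single Q 1 + Finsupp.single Q' 1) =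
      D - N • E := by
    ext v
    by_cases hv : x ∈ v.ring
    · rw [Finsupp.sub_apply, Finsupp.sub_apply, Finsupp.smul_apply, Finsupp.smul_apply,
        ← ord_fin_y h hy hf hp hl hc hP hPy h0 hv (hD v),
        ord_fin_sub h hy he hQ hQb hQ' hQb' hv (hE v)]
    · have h2 : ∀ R : Place k F, ∀ a : k, R.At x a → (Finsupp.single R 1 : Place k F →₀ ℤ) v = 0 := by
        intro R a hR
        apply Finsupp.single_eq_of_ne
        rintro rfl
        exact hv hR.mem
      have hx0 := transc_ne h.transc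
      obtain ⟨m, hm⟩ := exists_hasOrd h.curve v hx0
      have h3 : HasOrd v (x - algebraMap k F d) m := by
        have h4 := ord_mul (ord_inf_sub h hv d) hm
        rwa [div_mul_cancel₀ _ hx0, zero_add] at h4
      have h4 : HasOrd v (y - aeval x p) (m * N) := by
        have h5 := ord_mul (ord_inf_y h hv hf hp hl) (ord_pow hm N)
        rwa [div_mul_cancel₀ _ (pow_ne_zero N hx0), zero_add] at h5
      rw [Finsupp.sub_apply, Finsupp.sub_apply, Finsupp.smul_apply, Finsupp.smul_apply,
        Finsupp.add_apply, Finsupp.finsetSum_apply, h2 Q d hQ, h2 Q' d hQ',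
        Finset.sum_eq_zero fun i _ => h2 (P i) (c i) (hP i),
        hasOrd_unique h.curve hne' (hD v) h4, hasOrd_unique h.curve (hne d) (hE v) h3]
      simp only [nsmul_eq_mul]
      ring
  rw [h1, map_sub, map_nsmul]
  exact sub_mem (unq_div_mem h.curve hne' hD)
    (nsmul_mem (unq_div_mem h.curve (hne d) hE) N)

end Pool.Agent.R22
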