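import Pool.Agent.R22.Poly
import Pool.Agent.R22.Rel
import Pool.Agent.R22.Coord
import Pool.Agent.Dess4.Quadric

/-!
# The rational points of a curve of genus two
-/

set_option autoImplicit false

noncomputable section

namespace Pool.Agent.R22

open Pool.Agent.ZCyc Pool.Agent.Dess Pool.Agent.Dess4 Pool.Agent.FPZ Polynomial IntermediateField
  Module
open scoped Classical

section Data

/-- the point with the number `n` -/
def pta (n : ℕ) : ℤ × ℕ × ℕ := pts.getD n (0, 1, 0)

variable (k : Type) [Field k] [CharZero k]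

/-- the abscissa -/
def px (n : ℕ) : k := ((pta n).1 : k) / ((pta n).2.1 : k)

/-- the ordinate -/
def py (n : ℕ) : k := ((pta n).2.2 : k) / ((pta n).2.1 : k) ^ 3

variable {k}

theorem pta_mem {n : ℕ} (hn : n < 321) : pta n ∈ pts := by
  rw [pta, List.getD_eq_getElem _ _ (by rw [pts_length]; exact hn)]
  exact List.getElem_mem _

theorem pta_spec {n : ℕ} (hn : n < 321) : (pta n).2.1 ≠ 0 ∧ (pta n).2.2 ≠ 0 ∧
    247747600 * (pta n).2.1 ^ 6 - 985905640 * (pta n).1 * (pta n).2.1 ^ 5 +
      567207969 * (pta n).1 ^ 2 * (pta n).2.1 ^ 4 + 2396040466 * (pta n).1 ^ 3 * (pta n).2.1 ^ 3 +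
      52485681 * (pta n).1 ^ 4 * (pta n).2.1 ^ 2 - 470135160 * (pta n).1 ^ 5 * (pta n).2.1 +
      82342800 * (pta n).1 ^ 6 = ((pta n).2.2 : ℤ) ^ 2 := by
  have h := List.all_eq_true.1 pt_ok _ (pta_mem hn)
  rw [chkPt] at h
  simp only [Bool.and_eq_true, decide_eq_true_eq] at h
  exact ⟨h.1.1, h.1.2, h.2⟩

theorem pb_ne {n : ℕ} (hn : n < 321) : ((pta n).2.1 : k) ≠ 0 :=
  Nat.cast_ne_zero.2 (pta_spec hn).1

theorem py_ne {n : ℕ} (hn : n < 321) : py k n ≠ 0 :=
  div_ne_zero (Nat.cast_ne_zero.2 (pta_spec hn).2.1) (pow_ne_zero 3 (pb_ne hn))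

theorem py_sq {n : ℕ} (hn : n < 321) : py k n ^ 2 = eval (px k n) (sextic k) := by
  have hb := pb_ne (k := k) hn
  have h := congrArg (Int.cast : ℤ → k) (pta_spec hn).2.2
  push_cast at h
  rw [sextic_eval, py, px, div_pow, ← h]
  field_simp
  ring

theorem chkNe_spec : ∀ l : List (ℤ × ℕ × ℕ), chkNe l = true →
    l.Pairwise fun p q => p.1 * (q.2.1 : ℤ) ≠ q.1 * (p.2.1 : ℤ) := by
  intro l
  induction l with
  | nil => intro _; exact List.Pairwise.nil
  | cons p l ih =>
    intro h
    rw [chkNe, Bool.and_eq_true, List.all_eq_true] at h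
    exact List.Pairwise.cons (fun q hq => of_decide_eq_true (h.1 q hq)) (ih h.2)

theorem px_inj {m n : ℕ} (hm : m < 321) (hn : n < 321) (h : px k m = px k n) : m = n := by
  by_contra hne
  have h1 : ∀ m n : ℕ, m < n → n < 321 → (pta m).1 * (pta n).2.1 ≠ (pta n).1 * (pta m).2.1 := by
    intro m n hmn hn
    have h2 := List.pairwise_iff_getElem.1 (chkNe_spec pts ne_ok) m n
      (by rw [pts_length]; omega) (by rw [pts_length]; exact hn) hmn
    rw [pta, pta, List.getD_eq_getElem _ _ (by rw [pts_length]; omega),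
      List.getD_eq_getElem _ _ (by rw [pts_length]; omega)]
    exact h2
  rw [px, px, div_eq_div_iff (pb_ne hm) (pb_ne hn)] at h
  have h2 : (pta m).1 * (pta n).2.1 = (pta n).1 * (pta m).2.1 := by exact_mod_cast h
  rcases lt_or_gt_of_ne hne with h3 | h3
  · exact h1 m n h3 hn h2
  · exact h1 n m h3 hm h2.symm

variable (k)

/-- the polynomial of a relation -/
def rp (R : Rel) : k[X] :=
  C ((R.p0 : k) / (R.d : k)) + C ((R.p1 : k) / (R.d : k)) * X + C ((R.p2 : k) / (R.d : k)) * X ^ 2 +
    C ((R.p3 : k) / (R.d : k)) * X ^ 3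

variable {k}

omit [CharZero k] in
theorem rp_degree (R : Rel) : (rp k R).natDegree ≤ 3 := by
  rw [rp]
  compute_degree

omit [CharZero k] in
theorem rp_coeff (R : Rel) : (rp k R).coeff 3 = (R.p3 : k) / (R.d : k) := by
  rw [rp]
  compute_degree!

theorem rel_form {R : Rel} (hR : R ∈ rels) : R.js.length = 6 ∧ R.d ≠ 0 ∧
    82342800 * R.d ^ 2 ≠ R.p3 ^ 2 ∧ (R.js.map Prod.fst).Nodup ∧ ∀ p ∈ R.js, p.1 < 321 := by
  have h := List.all_eq_true.1 form_ok R hR
  rw [chkForm] at h
  simp only [Bool.and_eq_true, decide_eq_true_eq, List.all_eq_true] at h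
  refine ⟨h.1.1.1.1, h.1.1.1.2, h.1.1.2, h.2, fun p hp => ?_⟩
  have h1 := h.1.2 p hp
  have h2 : (R.js.headD (0, true)).1 ∈ List.range' 22 299 := by
    rw [← rels_head]
    exact List.mem_map_of_mem hR
  rw [List.mem_range'_1] at h2
  omega

theorem rp_lead {R : Rel} (hR : R ∈ rels) : (sextic k).coeff (2 * 3) ≠ (rp k R).coeff 3 ^ 2 := by
  obtain ⟨-, hd, h1, -, -⟩ := rel_form hR
  have hd' : (R.d : k) ≠ 0 := Nat.cast_ne_zero.2 hd
  rw [show 2 * 3 = 6 from rfl, sextic_coeff, rp_coeff, div_pow]
  intro h2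
  rw [eq_div_iff (pow_ne_zero 2 hd')] at h2
  apply h1
  exact_mod_cast h2

theorem rp_eval {R : Rel} (hR : R ∈ rels) {p : ℕ × Bool} (hp : p ∈ R.js) :
    eval (px k p.1) (rp k R) = (sg p.2 : k) * py k p.1 := by
  obtain ⟨-, hd, -, -, hlt⟩ := rel_form hR
  have hd' : (R.d : k) ≠ 0 := Nat.cast_ne_zero.2 hd
  have hb := pb_ne (k := k) (hlt p hp)
  have h := List.all_eq_true.1 val_ok R hR
  rw [chkVal, List.all_eq_true] at h
  have h1 := h p hp
  have h2 : R.p0 * (pta p.1).2.1 ^ 3 + R.p1 * (pta p.1).1 * (pta p.1).2.1 ^ 2 +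
      R.p2 * (pta p.1).1 ^ 2 * (pta p.1).2.1 + R.p3 * (pta p.1).1 ^ 3 =
        R.d * (sg p.2 * (pta p.1).2.2) := by
    have h3 : R.p0 * (pta p.1).2.1 ^ 3 + R.p1 * (pta p.1).1 * (pta p.1).2.1 ^ 2 +
        R.p2 * (pta p.1).1 ^ 2 * (pta p.1).2.1 + R.p3 * (pta p.1).1 ^ 3 =
          R.d * cond p.2 ((pta p.1).2.2 : ℤ) (-(pta p.1).2.2) := of_decide_eq_true h1
    rw [h3]
    cases p.2 <;> simp [sg]
  have h3 := congrArg (Int.cast : ℤ → k) h2
  push_cast at h3
  rw [rp, px, py]
  simp only [eval_add, eval_mul, eval_C, eval_X, eval_pow]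
  field_simp
  linear_combination h3

end Data

section Curve

variable {k F : Type} [Field k] [IsAlgClosed k] [CharZero k] [Field F] [Algebra k F]
variable {x y : F}

/-- the value of a form on a divisor and a point -/
def lin (b : Place k F → Place k F → ℚ) (q : Place k F) : (Place k F →₀ ℤ) →+ ℚ :=
  Finsupp.liftAddHom fun p => (AddMonoidHom.mulRight (b p q)).comp (Int.castAddHom ℚ)

omit [IsAlgClosed k] [CharZero k] in
theorem lin_single (b : Place k F → Place k F → ℚ) (p q : Place k F) (n : ℤ) :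
    lin b q (Finsupp.single p n) = n * b p q := by
  rw [lin, Finsupp.liftAddHom_apply_single]
  rfl

omit [IsAlgClosed k] [CharZero k] in
theorem lin_unq (b : Place k F → Place k F → ℚ) (q : Place k F) (D : Place k F →₀ ℤ) :
    ((unq D).sum fun p n => (n : ℚ) * b (p ()) q) = lin b q D := by
  induction D using Finsupp.induction_linear with
  | zero => simp
  | add A B hA hB =>
    rw [map_add, map_add, Finsupp.sum_add_index' (by simp) (by intros; push_cast; ring), hA, hB]
  | single p n =>
    rw [unq_single, Finsupp.sum_single_index (by simp), lin_single]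

omit [IsAlgClosed k] in
/-- the curve -/
theorem y_notMem (h : HypField (sextic k) x y) : y ∉ adjoin k {x} :=
  notMem h sextic_separable (by rw [sextic_degree]; norm_num)

/-- The places of the points in the list. -/
theorem exists_places (h : HypField (sextic k) x y) :
    ∃ P : ℕ → Bool → Place k F, ∀ n < 321, ∀ s : Bool,
      (P n s).At x (px k n) ∧ (P n s).At y ((sg s : k) * py k n) := by
  have h1 : ∀ (n : ℕ) (s : Bool), ∃ v : Place k F, n < 321 →
      v.At x (px k n) ∧ v.At y ((sg s : k) * py k n) := by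
    intro n s
    by_cases hn : n < 321
    · obtain ⟨v, hv⟩ := exists_point h (y_notMem h) (c := px k n) (b := (sg s : k) * py k n) (by
        have h2 : ((sg s : k)) ^ 2 = 1 := by
          rw [sq]
          exact_mod_cast sg_sq s
        rw [mul_pow, h2, one_mul, py_sq hn])
      exact ⟨v, fun _ => hv⟩
    · obtain ⟨v, -⟩ := exists_place h.transc (0 : k)
      exact ⟨v, fun h => absurd h hn⟩
  choose P hP using h1
  exact ⟨P, fun n hn s => hP n s hn⟩

/-- **The relations.** -/
theorem rel_zero (h : HypField (sextic k) x y) {P : ℕ → Bool → Place k F}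
    (hP : ∀ n < 321, ∀ s : Bool, (P n s).At x (px k n) ∧ (P n s).At y ((sg s : k) * py k n))
    {b : Place k F → Place k F → ℚ}
    (hb : ∀ z ∈ RatEq fun _ : Unit => F, ∀ q, (z.sum fun p n => (n : ℚ) * b (p ()) q) = 0)
    {R : Rel} (hR : R ∈ rels) (q : Place k F) :
    (R.js.map fun p => b (P p.1 p.2) q).sum = 3 * (b (P 0 true) q + b (P 0 false) q) := by
  obtain ⟨h6, -, -, hnd, hlt⟩ := rel_form hR
  obtain ⟨v, hv⟩ : ∃ v : Fin (2 * 3) → ℕ × Bool, R.js = List.ofFn v := by
    refine ⟨fun i => R.js[(i : ℕ)]'(by rw [h6]; exact i.2), ?_⟩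
    apply List.ext_getElem
    · rw [List.length_ofFn, h6]
    · intro i h1 h2
      rw [List.getElem_ofFn]
  have hmem : ∀ i, v i ∈ R.js := fun i => by
    rw [hv]
    exact List.mem_ofFn.2 ⟨i, rfl⟩
  have hinj : Function.Injective fun i => (v i).1 := by
    rw [hv, List.map_ofFn, List.nodup_ofFn] at hnd
    exact hnd
  have h0 : (0 : ℕ) < 321 := by norm_num
  have hsg : ∀ s : Bool, (sg s : k) ≠ 0 := by
    intro s
    cases s <;> simp [sg]
  have hQ := hP 0 h0 true
  have hQ' := hP 0 h0 false
  have hpe : ∀ i, eval (px k (v i).1) (rp k R) = (sg (v i).2 : k) * py k (v i).1 :=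
    fun i => rp_eval hR (hmem i)
  have key := graph_mem h (y_notMem h) (p := rp k R) (N := 3)
    (by rw [sextic_degree]) (rp_degree R) (rp_lead hR) (c := fun i => px k (v i).1)
    (fun i j hij => hinj (px_inj (hlt _ (hmem i)) (hlt _ (hmem j)) hij))
    (P := fun i => P (v i).1 (v i).2)
    (fun i => (hP _ (hlt _ (hmem i)) _).1)
    (fun i => by
      simp only [hpe]
      exact (hP _ (hlt _ (hmem i)) _).2)
    (fun i => by
      simp only [hpe]
      exact mul_ne_zero (hsg _) (py_ne (hlt _ (hmem i))))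
    (d := px k 0) (e := py k 0) (py_ne h0) (Q := P 0 true) (Q' := P 0 false)
    hQ.1 (by simpa [sg] using hQ.2) hQ'.1 (by simpa [sg] using hQ'.2)
  have h1 := hb _ key q
  rw [lin_unq, map_sub, map_sum, map_nsmul, map_add] at h1
  simp only [lin_single, Int.cast_one, one_mul] at h1
  rw [hv, List.map_ofFn, List.sum_ofFn]
  have h2 : ∑ i, b (P (v i).1 (v i).2) q = 3 • (b (P 0 true) q + b (P 0 false) q) :=
    sub_eq_zero.1 h1
  rw [nsmul_eq_mul] at h2
  exact_mod_cast h2

/-- **Conjugate points.** -/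
theorem conj_zero (h : HypField (sextic k) x y) {P : ℕ → Bool → Place k F}
    (hP : ∀ n < 321, ∀ s : Bool, (P n s).At x (px k n) ∧ (P n s).At y ((sg s : k) * py k n))
    {b : Place k F → Place k F → ℚ}
    (hb : ∀ z ∈ RatEq fun _ : Unit => F, ∀ q, (z.sum fun p n => (n : ℚ) * b (p ()) q) = 0)
    {n : ℕ} (hn : n < 321) (q : Place k F) :
    b (P n true) q + b (P n false) q = b (P 0 true) q + b (P 0 false) q := by
  have h0 : (0 : ℕ) < 321 := by norm_num
  have hQ := hP 0 h0 true
  have hQ' := hP 0 h0 false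
  have hR := hP n hn true
  have hR' := hP n hn false
  have key := conj_mem h (y_notMem h) (py_ne hn) (py_ne h0) hR.1 (by simpa [sg] using hR.2)
    hR'.1 (by simpa [sg] using hR'.2) hQ.1 (by simpa [sg] using hQ.2) hQ'.1
    (by simpa [sg] using hQ'.2)
  have h1 := hb _ key q
  rw [lin_unq, map_sub, map_add, map_add] at h1
  simp only [lin_single, Int.cast_one, one_mul] at h1
  linarith

/-- **The points are on no quadric.** -/
theorem noQuadric (h : HypField (sextic k) x y) {P : ℕ → Bool → Place k F}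
    (hP : ∀ n < 321, ∀ s : Bool, (P n s).At x (px k n) ∧ (P n s).At y ((sg s : k) * py k n)) :
    NoQuadric {v : Place k F | ∃ n < 321, ∃ s, v = P n s} := by
  intro b hsym hb hdiag
  have hd : ∀ n < 321, ∀ s, b (P n s) (P n s) = 0 := fun n hn s => hdiag _ ⟨n, hn, s, rfl⟩
  -- the sum of a conjugate pair
  set κ : Place k F → ℚ := fun q => b (P 0 true) q + b (P 0 false) q with hκ
  have hc : ∀ n < 321, ∀ q, b (P n true) q + b (P n false) q = κ q :=
    fun n hn q => conj_zero h hP hb hn q
  -- its value at the points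
  have h1 : ∀ n < 321, κ (P n true) = b (P n true) (P n false) := by
    intro n hn
    rw [← hc n hn, hd n hn, zero_add, hsym]
  have h2 : ∀ n < 321, κ (P n false) = b (P n true) (P n false) := by
    intro n hn
    rw [← hc n hn, hd n hn, add_zero]
  have h3 : ∀ m < 321, ∀ n < 321, b (P m true) (P m false) = b (P n true) (P n false) := by
    intro m hm n hn
    have e1 := hc n hn (P m true)
    have e2 := hc n hn (P m false)
    have e3 := hc m hm (P n true)
    have e4 := hc m hm (P n false)
    rw [h1 m hm] at e1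
    rw [h2 m hm] at e2
    rw [h1 n hn] at e3
    rw [h2 n hn] at e4
    rw [hsym (P n true) (P m true), hsym (P n false) (P m true)] at e1
    rw [hsym (P n true) (P m false), hsym (P n false) (P m false)] at e2
    linarith
  have h0 : (0 : ℕ) < 321 := by norm_num
  set δ : ℚ := b (P 0 true) (P 0 false) with hδ
  have hκt : ∀ n < 321, ∀ s, κ (P n s) = δ := by
    intro n hn s
    cases s
    · rw [h2 n hn, h3 n hn 0 h0]
    · rw [h1 n hn, h3 n hn 0 h0]
  -- the form on the odd part
  have hrel : ∀ R ∈ rels, ∀ m < 321,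
      (R.js.map fun p => (sg p.2 : ℚ) * (b (P p.1 true) (P m true) - δ / 2)).sum = 0 := by
    intro R hR m hm
    obtain ⟨h6, -, -, -, hlt⟩ := rel_form hR
    have e1 := rel_zero h hP hb hR (P m true)
    change _ = 3 * κ (P m true) at e1
    rw [hκt m hm] at e1
    have e2 : ∀ l : List (ℕ × Bool), (∀ p ∈ l, p.1 < 321) →
        (l.map fun p => b (P p.1 p.2) (P m true)).sum =
          (l.map fun p => (sg p.2 : ℚ) * (b (P p.1 true) (P m true) - δ / 2)).sum +
            l.length * (δ / 2) := by
      intro l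
      induction l with
      | nil => intro _; simp
      | cons p l ih =>
        intro hl
        rw [List.map_cons, List.sum_cons, List.map_cons, List.sum_cons,
          ih fun p' hp' => hl p' (List.mem_cons_of_mem _ hp'), List.length_cons]
        have e3 := hc p.1 (hl p List.mem_cons_self) (P m true)
        rw [hκt m hm] at e3
        have e4 : b (P p.1 p.2) (P m true) =
            (sg p.2 : ℚ) * (b (P p.1 true) (P m true) - δ / 2) + δ / 2 := by
          cases p.2
          · simp only [sg, cond_false, Int.cast_neg, Int.cast_one]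
            linarith
          · simp only [sg, cond_true, Int.cast_one]
            ring
        rw [e4]
        push_cast
        ring
    have e3 := e2 R.js hlt
    rw [e1, h6] at e3
    push_cast at e3
    linarith
  obtain ⟨hg, hz⟩ := form_zero (B := fun m n => b (P m true) (P n true) - δ / 2) (g := -δ / 2)
    (fun m _ n _ => by
      simp only [hsym (P m true) (P n true)])
    (fun n hn => by
      simp only [hd n hn]
      ring) hrel
  have hδ0 : δ = 0 := by linarith
  have htt : ∀ m < 321, ∀ n < 321, b (P m true) (P n true) = 0 := by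
    intro m hm n hn
    have := hz m hm n hn
    rw [hδ0] at this
    simpa using this
  have hft : ∀ m < 321, ∀ n < 321, b (P m false) (P n true) = 0 := by
    intro m hm n hn
    have e1 := hc m hm (P n true)
    rw [hκt n hn, hδ0, htt m hm n hn, zero_add] at e1
    exact e1
  have hff : ∀ m < 321, ∀ n < 321, b (P m false) (P n false) = 0 := by
    intro m hm n hn
    have e1 := hc m hm (P n false)
    rw [hκt n hn, hδ0, hsym (P m true) (P n false), hft n hn m hm, zero_add] at e1
    exact e1
  rintro _ ⟨m, hm, s, rfl⟩ _ ⟨n, hn, t, rfl⟩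
  cases s <;> cases t
  · exact hff m hm n hn
  · exact hft m hm n hn
  · rw [hsym]
    exact hft n hn m hm
  · exact htt m hm n hn

end Curve

end Pool.Agent.R22
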