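import Mathlib

/-!
# The sextic polynomial
-/

set_option autoImplicit false

noncomputable section

namespace Pool.Agent.R22

open Polynomial

/-- The right side of the equation of the curve. -/
def sextic (k : Type) [Field k] : k[X] :=
  C 82342800 * X ^ 6 - C 470135160 * X ^ 5 + C 52485681 * X ^ 4 + C 2396040466 * X ^ 3 +
    C 567207969 * X ^ 2 - C 985905640 * X + C 247747600

variable {k : Type} [Field k]

theorem sextic_eval (c : k) : eval c (sextic k) =
    82342800 * c ^ 6 - 470135160 * c ^ 5 + 52485681 * c ^ 4 + 2396040466 * c ^ 3 +
      567207969 * c ^ 2 - 985905640 * c + 247747600 := by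
  simp [sextic]

theorem sextic_degree_le : (sextic k).natDegree ≤ 6 := by
  rw [sextic]
  compute_degree

theorem sextic_coeff : (sextic k).coeff 6 = 82342800 := by
  rw [sextic]
  compute_degree!

theorem sextic_degree [CharZero k] : (sextic k).natDegree = 6 := by
  refine le_antisymm sextic_degree_le (le_natDegree_of_ne_zero ?_)
  rw [sextic_coeff]
  norm_num

theorem coprime_of {U V f g u : k[X]} (hu : IsUnit u) (h : U * f + V * g = u) :
    IsCoprime f g := by
  obtain ⟨w, rfl⟩ := hu
  exact ⟨↑w⁻¹ * U, ↑w⁻¹ * V, by rw [mul_assoc, mul_assoc, ← mul_add, h, Units.inv_mul]⟩

theorem sextic_separable [CharZero k] : (sextic k).Separable := by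
  have h : (C 792690121839230281717363771885173008150544028282511376 +
      C 1364549463966811919976431710729028773549582776027374286 * X -
      C 190496815543557858240919562483047751056760499363860172 * X ^ 2 -
      C 380859502992743304241046480079913188441671734275786600 * X ^ 3 +
      C 89994464160990524440130567365106856188506913076429600 * X ^ 4) * sextic k +
    (C 119100059571077380936101484526265118571373210071303840 -
      C 312752852616139360368375549717109684059327576966512508 * X -
      C 447890856313998679993898219449726692378985285867201647 * X ^ 2 +
      C 36068349195104681970353066025594362863282008679928493 * X ^ 3 +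
      C 77749423786100007826665053933282888529743277637658520 * X ^ 4 -
      C 14999077360165087406688427894184476031417818846071600 * X ^ 5) * derivative (sextic k) =
    C 78965654773915717401469819604681579819292131347121057367040000 := by
    simp only [sextic, map_ofNat, derivative_add, derivative_sub, derivative_mul, derivative_ofNat,
      derivative_X_pow, derivative_X]
    push_cast
    simp only [map_ofNat]
    norm_num
    ring
  have h0 : IsUnit (C (78965654773915717401469819604681579819292131347121057367040000 : k)) := by
    rw [isUnit_C]
    exact isUnit_iff_ne_zero.2 (by norm_num)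
  exact coprime_of h0 h

end Pool.Agent.R22
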