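import Pool.Agent.R22.Defs
import Pool.Agent.R22.Final

/-!
# The rank of the group generated by the points
-/

set_option autoImplicit false
set_option linter.constructorNameAsVariable false

noncomputable section

namespace Pool.Agent.R22

open Pool.Agent.ZCyc Pool.Agent.Dess Pool.Agent.Dess4 Pool.Agent.FPZ Polynomial IntermediateField
  Module
open scoped Classical

/-- the rank of a group which is generated by `d` independent elements up to an exponent -/
theorem finrank_eq_of_span {M : Type} [AddCommGroup M] (G : AddSubgroup M) {d : ℕ} (e : Fin d → M)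
    (he : ∀ i, e i ∈ G) (hind : ∀ m : Fin d → ℤ, ∑ i, m i • e i = 0 → m = 0)
    (hspan : ∀ g ∈ G, ∃ m : Fin d → ℤ, (2 : ℤ) • g = ∑ i, m i • e i) :
    Module.finrank ℤ G = d := by
  let e' : Fin d → G := fun i => ⟨e i, he i⟩
  have hli : LinearIndependent ℤ e' := by
    rw [Fintype.linearIndependent_iff]
    intro m hm i
    have h1 : ∑ i, m i • e i = 0 := by
      have h2 := congrArg (AddSubgroup.subtype G) hm
      rw [map_sum, map_zero] at h2
      rw [← h2]
      apply Finset.sum_congr rfl
      intro i _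
      rw [map_zsmul]
      rfl
    exact congrFun (hind m h1) i
  let N : Submodule ℤ G := Submodule.span ℤ (Set.range e')
  have hN : Module.rank ℤ N = d := by
    rw [rank_span hli, Cardinal.mk_range_eq _ hli.injective]
    simp
  have htor : Module.rank ℤ (G ⧸ N) = 0 := by
    rw [rank_eq_zero_iff]
    intro q
    obtain ⟨g, rfl⟩ := Submodule.Quotient.mk_surjective N q
    refine ⟨2, two_ne_zero, ?_⟩
    rw [← Submodule.Quotient.mk_smul, Submodule.Quotient.mk_eq_zero]
    obtain ⟨m, hm⟩ := hspan g g.2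
    have h1 : (2 : ℤ) • g = ∑ i, m i • e' i := by
      apply Subtype.ext
      rw [AddSubgroup.coe_zsmul, hm, AddSubgroup.val_finsetSum]
      apply Finset.sum_congr rfl
      intro i _
      rw [AddSubgroup.coe_zsmul]
    rw [h1]
    exact Submodule.sum_mem _ fun i _ => Submodule.smul_mem _ _
      (Submodule.subset_span (Set.mem_range_self i))
  have h1 := rank_quotient_add_rank_of_isDomain N
  rw [htor, hN, zero_add] at h1
  rw [Module.finrank, ← h1]
  simp

theorem span_sub {M : Type} [AddCommGroup M] {e : ℕ → M} {a b w : M} {s t : ℤ} {c c' : ℕ → ℤ}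
    (ha : (2 : ℤ) • a = s • (∑ i ∈ Finset.range 22, c i • e i) + w)
    (hb : (2 : ℤ) • b = t • (∑ i ∈ Finset.range 22, c' i • e i) + w) :
    ∃ m : Fin 22 → ℤ, (2 : ℤ) • (a - b) = ∑ i, m i • e i := by
  refine ⟨fun i => s * c i - t * c' i, ?_⟩
  rw [smul_sub, ha, hb, Finset.sum_range, Finset.sum_range, add_sub_add_right_eq_sub,
    Finset.smul_sum, Finset.smul_sum, ← Finset.sum_sub_distrib]
  apply Finset.sum_congr rfl
  intro i _
  rw [sub_smul, mul_smul, mul_smul]

theorem span_add {M : Type} [AddCommGroup M] {e : Fin 22 → M} {a b : M} {m m' : Fin 22 → ℤ}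
    (ha : (2 : ℤ) • a = ∑ i, m i • e i) (hb : (2 : ℤ) • b = ∑ i, m' i • e i) :
    (2 : ℤ) • (a + b) = ∑ i, (m + m') i • e i := by
  rw [smul_add, ha, hb, ← Finset.sum_add_distrib]
  apply Finset.sum_congr rfl
  intro i _
  rw [Pi.add_apply, add_smul]

theorem span_neg {M : Type} [AddCommGroup M] {e : Fin 22 → M} {a : M} {m : Fin 22 → ℤ}
    (ha : (2 : ℤ) • a = ∑ i, m i • e i) : (2 : ℤ) • (-a) = ∑ i, (-m) i • e i := by
  rw [smul_neg, ha, ← Finset.sum_neg_distrib]
  apply Finset.sum_congr rfl
  intro i _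
  rw [Pi.neg_apply, neg_smul]

theorem two_smul_of {M : Type} [AddCommGroup M] {a a' d w : M} (h : a + a' = w)
    (hd : d = a - a') : (2 : ℤ) • a = (1 : ℤ) • d + w ∧ (2 : ℤ) • a' = (-1 : ℤ) • d + w := by
  rw [hd, ← h]
  constructor <;> module

variable {F : Type} [Field F]

section

variable {k : Type} [Field k] [IsAlgClosed k] [CharZero k] [Algebra k F] {x y : F}

/-- the set of the points -/
def PSet (P : ℕ → Bool → Place k F) : Set (Place k F) := {v | ∃ n < 321, ∃ s, v = P n s}

omit [IsAlgClosed k] [CharZero k] in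
theorem cls_eq_zero {A : Place k F →₀ ℤ} : cls A = 0 ↔ unq A ∈ RatEq (k := k) fun _ : Unit => F := by
  rw [cls, QuotientAddGroup.eq_zero_iff]

omit [IsAlgClosed k] [CharZero k] in
theorem cls_sub (A B : Place k F →₀ ℤ) : cls (A - B) = cls A - cls B := by
  rw [cls, map_sub, QuotientAddGroup.mk_sub]
  rfl

omit [IsAlgClosed k] [CharZero k] in
theorem cls_add (A B : Place k F →₀ ℤ) : cls (A + B) = cls A + cls B := by
  rw [cls, map_add, QuotientAddGroup.mk_add]
  rfl

omit [IsAlgClosed k] [CharZero k] in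
theorem cls_sum (m : ℕ → ℤ) (A : ℕ → Place k F →₀ ℤ) (s : Finset ℕ) :
    cls (∑ i ∈ s, m i • A i) = ∑ i ∈ s, m i • cls (A i) := by
  change ((QuotientAddGroup.mk' _).comp unq) _ = _
  rw [map_sum]
  apply Finset.sum_congr rfl
  intro i _
  rw [map_zsmul]
  rfl

/-- **The rank of the group.** -/
theorem finrank_gen (h : HypField (sextic k) x y) {P : ℕ → Bool → Place k F}
    (hP : ∀ n < 321, ∀ s : Bool, (P n s).At x (px k n) ∧ (P n s).At y ((sg s : k) * py k n))
    (hspan : ∀ n < 321, ∃ c : ℕ → ℤ, unq (Finsupp.single (P n true) 1 -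
      Finsupp.single (P n false) 1 - ∑ i ∈ Finset.range 22, c i •
        (Finsupp.single (P i true) (1 : ℤ) - Finsupp.single (P i false) 1)) ∈
          RatEq (k := k) fun _ : Unit => F)
    (hind : ∀ m : ℕ → ℤ, unq (∑ i ∈ Finset.range 22, m i • (Finsupp.single (P i true) (1 : ℤ) -
      Finsupp.single (P i false) 1)) ∈ RatEq (k := k) (fun _ : Unit => F) → ∀ i < 22, m i = 0) :
    Module.finrank ℤ (Gen (PSet P)) = 22 := by
  have hmem : ∀ n < 321, ∀ s, P n s ∈ PSet P := fun n hn s => ⟨n, hn, s, rfl⟩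
  set e : ℕ → Pic k F := fun n =>
    cls (Finsupp.single (P n true) 1 - Finsupp.single (P n false) 1) with he
  have hsum : ∀ m : Fin 22 → ℤ, ∃ m' : ℕ → ℤ, (∀ i : Fin 22, m' i = m i) ∧
      ∑ i, m i • e i = ∑ i ∈ Finset.range 22, m' i • e i := by
    intro m
    refine ⟨fun i => if h : i < 22 then m ⟨i, h⟩ else 0, fun i => by simp, ?_⟩
    rw [Finset.sum_range]
    apply Finset.sum_congr rfl
    intro i _
    simp
  have hspan' : ∀ n < 321, ∃ c : ℕ → ℤ, e n = ∑ i ∈ Finset.range 22, c i • e i := by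
    intro n hn
    obtain ⟨c, hc⟩ := hspan n hn
    refine ⟨c, ?_⟩
    rw [← cls_eq_zero, cls_sub, cls_sum, sub_eq_zero] at hc
    exact hc
  refine finrank_eq_of_span _ (fun i : Fin 22 => e i) (fun i => ?_) (fun m hm => ?_)
    (fun g hg => ?_)
  · have hi : (i : ℕ) < 321 := i.2.trans (by norm_num)
    exact AddSubgroup.subset_closure ⟨_, hmem i hi true, _, hmem i hi false, rfl⟩
  · obtain ⟨m', hm1, hm2⟩ := hsum m
    rw [hm2, ← cls_sum, cls_eq_zero] at hm
    funext i
    rw [← hm1 i]
    exact hind m' hm i i.2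
  · induction hg using AddSubgroup.closure_induction with
    | mem g hg =>
      obtain ⟨p, ⟨n, hn, s, rfl⟩, q, ⟨n', hn', t, rfl⟩, rfl⟩ := hg
      obtain ⟨c, hc⟩ := hspan' n hn
      obtain ⟨c', hc'⟩ := hspan' n' hn'
      -- the sums of conjugate points are equivalent
      have h1 : ∀ n < 321, cls (Finsupp.single (P n true) 1) + cls (Finsupp.single (P n false) 1) =
          cls (Finsupp.single (P 0 true) 1) + cls (Finsupp.single (P 0 false) 1) := by
        intro n hn
        have h0 : (0 : ℕ) < 321 := by norm_num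
        have hQ := hP 0 h0 true
        have hQ' := hP 0 h0 false
        have hR := hP n hn true
        have hR' := hP n hn false
        have key := conj_mem h (y_notMem h) (py_ne hn) (py_ne h0) hR.1
          (by simpa [sg] using hR.2) hR'.1 (by simpa [sg] using hR'.2) hQ.1
          (by simpa [sg] using hQ.2) hQ'.1 (by simpa [sg] using hQ'.2)
        rw [← cls_eq_zero, cls_sub, cls_add, cls_add, sub_eq_zero] at key
        exact key
      have h2 : ∀ n < 321, ∀ s, (2 : ℤ) • cls (Finsupp.single (P n s) 1) = sg s • e n +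
          (cls (Finsupp.single (P 0 true) 1) + cls (Finsupp.single (P 0 false) 1)) := by
        intro n hn s
        have h3 := two_smul_of (h1 n hn) (cls_sub (Finsupp.single (P n true) 1)
          (Finsupp.single (P n false) 1))
        cases s
        · exact h3.2
        · exact h3.1
      have e1 := h2 n hn s
      have e2 := h2 n' hn' t
      rw [hc] at e1
      rw [hc'] at e2
      rw [cls_sub]
      exact span_sub e1 e2
    | zero => exact ⟨0, by simp⟩
    | add g g' _ _ h h' =>
      obtain ⟨m, hm⟩ := h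
      obtain ⟨m', hm'⟩ := h'
      exact ⟨m + m', span_add hm hm'⟩
    | neg g _ h =>
      obtain ⟨m, hm⟩ := h
      exact ⟨-m, span_neg hm⟩

end

end Pool.Agent.R22
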