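import Pool.Agent.R22.Rank

/-!
# The record curve
-/

set_option autoImplicit false
set_option linter.constructorNameAsVariable false

noncomputable section

namespace Pool.Agent.R22

open Pool.Agent.ZCyc Pool.Agent.Dess Pool.Agent.Dess4 Pool.Agent.FPZ Polynomial
open scoped Classical

variable {F : Type} [Field F] [Algebra QQ F] {x y : F}

/-- the set of the points is finite -/
def PFin (P : ℕ → Bool → Place QQ F) : Finset (Place QQ F) :=
  (Finset.range 321 ×ˢ Finset.univ).image fun p : ℕ × Bool => P p.1 p.2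

theorem coe_pFin (P : ℕ → Bool → Place QQ F) : (PFin P : Set (Place QQ F)) = PSet P := by
  ext v
  rw [PFin, Finset.coe_image, Set.mem_image, PSet, Set.mem_setOf_eq]
  constructor
  · rintro ⟨⟨n, s⟩, hn, rfl⟩
    rw [Finset.mem_coe, Finset.mem_product, Finset.mem_range] at hn
    exact ⟨n, hn.1, s, rfl⟩
  · rintro ⟨n, hn, s, rfl⟩
    refine ⟨(n, s), ?_, rfl⟩
    rw [Finset.mem_coe, Finset.mem_product, Finset.mem_range]
    exact ⟨hn, Finset.mem_univ _⟩

/-- **The record curve.** -/
theorem record_set (h : HypField (sextic QQ) x y)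
    (hind : ∀ P : ℕ → Bool → Place QQ F, (∀ n < 321, ∀ s : Bool,
      (P n s).At x (px QQ n) ∧ (P n s).At y ((sg s : QQ) * py QQ n)) → ∀ m : ℕ → ℤ,
        unq (∑ i ∈ Finset.range 22, m i • (Finsupp.single (P i true) (1 : ℤ) -
          Finsupp.single (P i false) 1)) ∈ RatEq (k := QQ) (fun _ : Unit => F) →
            ∀ i < 22, m i = 0) :
    ∃ S : Finset (Place QQ F), S.card = 642 ∧
      (∀ p ∈ S, ∃ a b : ℚ, p.At x (a : QQ) ∧ p.At y (b : QQ)) ∧
      NoQuadric (S : Set (Place QQ F)) ∧ Module.finrank ℤ (Gen (S : Set (Place QQ F))) = 22 := by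
  obtain ⟨P, hP, hcard, hspan, -⟩ := record h
  refine ⟨PFin P, hcard, fun p hp => ?_, ?_, ?_⟩
  · rw [← Finset.mem_coe, coe_pFin] at hp
    obtain ⟨n, hn, s, rfl⟩ := hp
    refine ⟨((pta n).1 : ℚ) / ((pta n).2.1 : ℚ),
      (sg s : ℚ) * (((pta n).2.2 : ℚ) / ((pta n).2.1 : ℚ) ^ 3), ?_, ?_⟩
    · have h1 := (hP n hn s).1
      rw [px] at h1
      push_cast
      exact h1
    · have h1 := (hP n hn s).2
      rw [py] at h1
      push_cast
      exact h1
  · rw [coe_pFin]
    exact noQuadric h hP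
  · rw [coe_pFin]
    exact finrank_gen h hP hspan (hind P hP)

end Pool.Agent.R22
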