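import Pool.Agent.R22.Defs
import Pool.Agent.R22.NQ

/-!
# The saturation of the group generated by points on no quadric
-/

set_option autoImplicit false

noncomputable section

namespace Pool.Agent.R22

open Pool.Agent.ZCyc Pool.Agent.Dess Pool.Agent.Dess4 Pool.Agent.FPZ
open scoped Classical

/-- A positive multiple of the class of the divisor `A` is in the group generated by the classes of the
divisors `p - q`, `p` and `q` in `S`. -/
def InSat {k F : Type} [Field k] [Field F] [Algebra k F] (S : Set (Place k F))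
    (A : Place k F →₀ ℤ) : Prop := ∃ m : ℕ, 0 < m ∧ m • cls A ∈ Gen S

variable {k F : Type} [Field k] [IsAlgClosed k] [CharZero k] [Field F] [Algebra k F]

theorem form_right {l : Quo k F →+ ℚ} {x y : (Unit → Place k F) →₀ ℤ}
    (hy : y ∈ RatEq fun _ : Unit => F) : form l x y = 0 := by
  rw [form_apply, cross_left hy, cross_right hy, diaq_ratEq hy, degq_ratEq hy, map_zero]
  ring

theorem form_left {l : Quo k F →+ ℚ} {x y : (Unit → Place k F) →₀ ℤ}
    (hx : x ∈ RatEq fun _ : Unit => F) : form l x y = 0 := by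
  rw [form_apply, cross_left hx, cross_right hx, diaq_ratEq hx, degq_ratEq hx, map_zero]
  ring

/-- the form of a functional on the Picard group -/
def pform (l : Quo k F →+ ℚ) : Pic k F →+ Pic k F →+ ℚ :=
  QuotientAddGroup.lift _ (AddMonoidHom.mk' (fun x => QuotientAddGroup.lift _ (form l x)
    (fun _ hy => form_right hy)) (fun x x' =>
      QuotientAddGroup.addMonoidHom_ext _ (AddMonoidHom.ext fun y => by
        change form l (x + x') y = form l x y + form l x' y
        rw [map_add, AddMonoidHom.add_apply]))) (fun x hx =>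
      QuotientAddGroup.addMonoidHom_ext _ (AddMonoidHom.ext fun _ => form_left hx))

theorem pform_cls (l : Quo k F →+ ℚ) (A B : Place k F →₀ ℤ) :
    pform l (cls A) (cls B) = form l (unq A) (unq B) := rfl

theorem pform_gen {l : Quo k F →+ ℚ} {S : Set (Place k F)}
    (hl : ∀ p ∈ S, ∀ q ∈ S, form l (pt p) (pt q) = 0) {a b : Pic k F} (ha : a ∈ Gen S)
    (hb : b ∈ Gen S) : pform l a b = 0 := by
  have h1 : ∀ p ∈ S, ∀ q ∈ S, ∀ p' ∈ S, ∀ q' ∈ S,
      pform l (cls (Finsupp.single p 1 - Finsupp.single q 1))
        (cls (Finsupp.single p' 1 - Finsupp.single q' 1)) = 0 := by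
    intro p hp q hq p' hp' q' hq'
    have h2 : ∀ p q : Place k F, unq (Finsupp.single p 1 - Finsupp.single q 1) = pt p - pt q := by
      intro p q
      rw [map_sub, unq_single, unq_single]
      rfl
    rw [pform_cls, h2, h2]
    simp only [map_sub, AddMonoidHom.sub_apply, hl p hp p' hp', hl p hp q' hq', hl q hq p' hp',
      hl q hq q' hq', sub_self]
  induction ha using AddSubgroup.closure_induction with
  | mem a ha =>
    obtain ⟨p, hp, q, hq, rfl⟩ := ha
    induction hb using AddSubgroup.closure_induction with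
    | mem b hb =>
      obtain ⟨p', hp', q', hq', rfl⟩ := hb
      exact h1 p hp q hq p' hp' q' hq'
    | zero => rw [map_zero]
    | add b b' _ _ h h' => rw [map_add, h, h', add_zero]
    | neg b _ h => rw [map_neg, h, neg_zero]
  | zero => rw [map_zero, AddMonoidHom.zero_apply]
  | add a a' _ _ h h' => rw [map_add, AddMonoidHom.add_apply, h, h', add_zero]
  | neg a _ h => rw [map_neg, AddMonoidHom.neg_apply, h, neg_zero]

/-- the degree, on the Picard group -/
def pdeg : Pic k F →+ ℚ := QuotientAddGroup.lift _ degq fun _ hx => degq_ratEq hx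

theorem pdeg_gen {S : Set (Place k F)} {a : Pic k F} (ha : a ∈ Gen S) : pdeg a = 0 := by
  induction ha using AddSubgroup.closure_induction with
  | mem a ha =>
    obtain ⟨p, -, q, -, rfl⟩ := ha
    change degq (unq _) = 0
    rw [map_sub, map_sub, unq_single, unq_single, degq_single, degq_single, sub_self]
  | zero => rw [map_zero]
  | add a a' _ _ h h' => rw [map_add, h, h', add_zero]
  | neg a _ h => rw [map_neg, h, neg_zero]

/-- **Divisors in the saturation.** -/
theorem nq_sat {S : Set (Place k F)} (hS : NoQuadric S) {A B : Place k F →₀ ℤ} (hA : InSat S A)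
    (hB : InSat S B) : RatTor (fun _ : Bool => F) (exq A B + exq B A) := by
  obtain ⟨m, hm, hA⟩ := hA
  obtain ⟨n, hn, hB⟩ := hB
  change _ ∈ torGroup fun _ : Bool => F
  rw [← QuotientAddGroup.eq_zero_iff]
  by_contra h0
  obtain ⟨l, hl⟩ := exists_functional (fun n x hn hx => quo_tf (k := k) (F := F) hn hx) h0
  have key : ∀ p ∈ S, ∀ q ∈ S, form l (pt p) (pt q) = 0 := by
    intro p hp q hq
    refine hS (fun p q => form l (pt p) (pt q)) (fun x y => ?_) (fun x hx y => ?_)
      (fun p _ => ?_) p hp q hq
    · rw [form_apply, form_apply]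
      ring
    · rw [form_sum, form_apply, cross_left hx, cross_right hx, diaq_ratEq hx, degq_ratEq hx,
        map_zero]
      ring
    · rw [form_pt]
      ring
  have h1 := pform_gen key hA hB
  rw [map_nsmul, map_nsmul, AddMonoidHom.nsmul_apply, pform_cls] at h1
  have h2 : form l (unq A) (unq B) = 0 := by
    rw [nsmul_eq_mul, nsmul_eq_mul] at h1
    have hm' : (m : ℚ) ≠ 0 := Nat.cast_ne_zero.2 hm.ne'
    have hn' : (n : ℚ) ≠ 0 := Nat.cast_ne_zero.2 hn.ne'
    exact (mul_eq_zero.1 ((mul_eq_zero.1 h1).resolve_left hn')).resolve_left hm'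
  have hdeg : ∀ (r : ℕ) (A : Place k F →₀ ℤ), 0 < r → r • cls A ∈ Gen S → degq (unq A) = 0 := by
    intro r A hr h
    have h3 := pdeg_gen h
    rw [map_nsmul, nsmul_eq_mul] at h3
    exact (mul_eq_zero.1 h3).resolve_left (Nat.cast_ne_zero.2 hr.ne')
  apply hl
  rw [QuotientAddGroup.mk_add, exq_cross, exq_cross, map_add]
  rw [form_apply, hdeg m A hm hA, hdeg n B hn hB] at h2
  linarith

end Pool.Agent.R22
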