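import Pool.Agent.R22.Sat

/-!
# Exterior products of divisors
-/

set_option autoImplicit false

noncomputable section

namespace Pool.Agent.R22

open Pool.Agent.ZCyc Pool.Agent.Dess Pool.Agent.Dess4 Pool.Agent.FPZ
open scoped Classical

variable {k F : Type} [Field k] [Field F] [Algebra k F]

theorem prd_eq (A B : Place k F →₀ ℤ) : prd A B = exq A B := by
  rw [prd]
  induction A using Finsupp.induction_linear with
  | zero => simp
  | add A A' hA hA' =>
    rw [Finsupp.sum_add_index' (by simp) (fun _ m m' => by
      rw [← Finsupp.sum_add]
      apply Finsupp.sum_congr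
      intro q _
      rw [add_mul, Finsupp.single_add]), hA, hA', map_add, AddMonoidHom.add_apply]
  | single p m =>
    rw [Finsupp.sum_single_index (by simp)]
    induction B using Finsupp.induction_linear with
    | zero => simp
    | add B B' hB hB' =>
      rw [Finsupp.sum_add_index' (by simp) (fun _ n n' => by rw [mul_add, Finsupp.single_add]),
        hB, hB', map_add]
    | single q n =>
      rw [Finsupp.sum_single_index (by simp), exq_single]

theorem swap_exq (A B : Place k F →₀ ℤ) : (exq A B).mapDomain swap = exq B A := by
  induction A using Finsupp.induction_linear with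
  | zero => simp
  | add A A' hA hA' =>
    rw [map_add, AddMonoidHom.add_apply, Finsupp.mapDomain_add, hA, hA', map_add]
  | single p m =>
    induction B using Finsupp.induction_linear with
    | zero => simp
    | add B B' hB hB' =>
      rw [map_add, Finsupp.mapDomain_add, hB, hB', map_add, AddMonoidHom.add_apply]
    | single q n =>
      rw [exq_single, exq_single, Finsupp.mapDomain_single, mul_comm]
      congr 1
      funext i
      cases i <;> rfl

theorem cls_sub' (A B : Place k F →₀ ℤ) : cls (A - B) = cls A - cls B := by
  rw [cls, map_sub, QuotientAddGroup.mk_sub]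
  rfl

variable [IsAlgClosed k] [CharZero k]

/-- **Divisors in the saturation.** -/
theorem symTor_prd {S : Set (Place k F)} (hS : NoQuadric S) {A B : Place k F →₀ ℤ}
    (hA : InSat S A) (hB : InSat S B) : SymTor (prd A B) := by
  rw [SymTor, prd_eq, swap_exq]
  exact nq_sat hS hA hB

end Pool.Agent.R22
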